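import Pool.Agent.Lib.PosetForcing.CardDefs

set_option autoImplicit false

/-! Martin's axiom and the Lipschitz Baumgartner axiom written inside a structure `(M, mem)`;
all quantifiers range over `M`. Cantor space is the power set `C` of `w = ω`, a point of `2^ω`
being identified with the set where it takes the value `1`. -/

open Pool.Agent.Lib.PosetForcing

namespace Pool.Agent.P.MP_93aff1_lc

universe v

variable {M : Type v} (mem : M → M → Prop)

/-- `x ↾ k = y ↾ k` -/
def AgreeTo (x y k : M) : Prop := ∀ m, mem m k → (mem m x ↔ mem m y)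

/-- `V` is an open subset of Cantor space -/
def IsOpenSet (V C w : M) : Prop :=
  IsSub mem V C ∧ ∀ x, mem x V → ∃ k, mem k w ∧ ∀ y, mem y C → AgreeTo mem x y k → mem y V

/-- `A ⊆ C` and `|A ∩ V| = ℵ₁` for every nonempty open `V` -/
def Aleph1Dense (A C w w1 : M) : Prop :=
  IsSub mem A C ∧ ∀ V, IsOpenSet mem V C w → (∃ x, mem x V) →
    ∀ S, (∀ x, mem x S ↔ mem x A ∧ mem x V) → LeCard mem w1 S ∧ LeCard mem S w1

/-- `f : C → C` is Lipschitz with constant `1` -/
def IsLipschitz (f C w : M) : Prop :=
  IsFun mem f C C ∧ ∀ k x y x' y', mem k w → App mem f x x' → App mem f y y' →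
    AgreeTo mem x y k → AgreeTo mem x' y' k

/-- the Lipschitz Baumgartner axiom -/
def BALip (w w1 C : M) : Prop :=
  ∀ A B, Aleph1Dense mem A C w w1 → Aleph1Dense mem B C w w1 →
    ∃ f, IsLipschitz mem f C w ∧ (∀ x y, mem x A → App mem f x y → mem y B) ∧
      ∀ x x' y, mem x A → mem x' A → App mem f x y → App mem f x' y → x = x'

/-- `le` is a reflexive and transitive relation on the nonempty set `Q` -/
def IsPoset (Q le : M) : Prop :=
  (∃ x, mem x Q) ∧ (∀ x, mem x Q → App mem le x x) ∧
    ∀ x y z, mem x Q → mem y Q → mem z Q → App mem le x y → App mem le y z → App mem le x z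

/-- `x` and `y` have a common extension in `Q` -/
def Compat (Q le x y : M) : Prop := ∃ z, mem z Q ∧ App mem le z x ∧ App mem le z y

/-- every antichain of `Q` is countable -/
def IsCCC (Q le w : M) : Prop :=
  ∀ A, IsSub mem A Q → (∀ x y, mem x A → mem y A → x ≠ y → ¬ Compat mem Q le x y) → LeCard mem A w

/-- `D` is a dense subset of `Q` -/
def IsDense (D Q le : M) : Prop :=
  IsSub mem D Q ∧ ∀ x, mem x Q → ∃ y, mem y D ∧ App mem le y x

/-- `G` is a filter on `Q` -/
def IsFilter (G Q le : M) : Prop :=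
  IsSub mem G Q ∧ (∃ x, mem x G) ∧ (∀ x y, mem x G → mem y Q → App mem le x y → mem y G) ∧
    ∀ x y, mem x G → mem y G → ∃ z, mem z G ∧ App mem le z x ∧ App mem le z y

/-- Martin's axiom: for every ccc `Q` and every family of fewer than `|C|` dense sets there is a
filter meeting all of them -/
def MA (w C : M) : Prop :=
  ∀ Q le F, IsPoset mem Q le → IsCCC mem Q le w → (∀ D, mem D F → IsDense mem D Q le) →
    ¬ LeCard mem C F → ∃ G, IsFilter mem G Q le ∧ ∀ D, mem D F → ∃ x, mem x G ∧ mem x D

end Pool.Agent.P.MP_93aff1_lc
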