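import Pool.Agent.P.MP_93aff1_lc.Reals

set_option autoImplicit false

open Pool.Agent.Lib.PosetForcing Cardinal

namespace Pool.Agent.P.MP_93aff1_lc

theorem exists_small_cover {p : PP} {F : Name PP}
    (h : Forces p fun U => ¬ LeCard Mod.mem (cN.val U) (F.val U)) :
    ∃ q ≤ p, ∃ (Z : Type 1) (_ : Small.{0} Z) (d : Z → Name PP),
      Forces q fun U => ∀ D, Mod.mem D (F.val U) → Mod.mem D ((fam d).val U) := by
  by_contra hcon
  push Not at hcon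
  have h1 : ∀ (Z : Type 1) (_ : Small.{0} Z) (d : Z → Name PP), ∃ g : Name PP,
      Forces p fun U => Mod.mem (g.val U) (F.val U) ∧ ¬ Mod.mem (g.val U) ((fam d).val U) := by
    intro Z hZ d
    refine Forces.exists_name
      (Φ := fun U g => Mod.mem g (F.val U) ∧ ¬ Mod.mem g ((fam d).val U)) ?_
    by_contra h2
    obtain ⟨q, hq, h3⟩ := exists_forces_not h2
    exact hcon q hq Z hZ d (h3.imp fun U h D hD => by_contra fun h4 => h ⟨D, hD, h4⟩)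
  choose g hg using h1
  obtain ⟨e⟩ : Nonempty ({S : Set (PP × ULift.{1} ℕ) // Small.{0} S} ↪ O) := by
    rw [← Cardinal.le_def, mk_ordinal]
    exact mk_small_le (mk_prod_le ((mk_subtype_le _).trans mk_C_le) (mk_le_univ_of_small _))
  have hr : WellFounded fun μ ν => e μ < e ν := InvImage.wf e wellFounded_lt
  have hsm : ∀ ν, Small.{0} {μ // e μ < e ν} := fun ν => small_of_injective
    (f := fun μ => (⟨e μ.1, μ.2⟩ : Set.Iio (e ν)))
    fun μ μ' h => Subtype.ext (e.injective (congrArg Subtype.val h))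
  let dn : {S : Set (PP × ULift.{1} ℕ) // Small.{0} S} → Name PP :=
    hr.fix fun ν ih => g {μ // e μ < e ν} (hsm ν) fun μ => ih μ.1 μ.2
  have hdn : ∀ ν, dn ν = g {μ // e μ < e ν} (hsm ν) fun μ => dn μ.1 := fun ν => hr.fix_eq _ ν
  have hlt : ∀ μ ν, e μ < e ν → ∀ q ≤ p, ¬ Forces q fun U => (dn μ).val U = (dn ν).val U := by
    intro μ ν hμ q hq h2
    refine Forces.not_false (p := q) fun U hU => ?_
    have h3 := ((hg _ (hsm ν) fun μ => dn μ.1).mono hq U hU).2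
    rw [← hdn ν, ← h2 U hU] at h3
    exact h3 (mem_fam (fun μ : {μ // e μ < e ν} => dn μ.1) ⟨μ, hμ⟩ U)
  have h2 : Forces p fun U => LeCard Mod.mem (cN.val U) (F.val U) := by
    refine forces_leCard (fun S => niceReal S.1) dn (fun x q _ hx => ?_)
      (fun ν => hdn ν ▸ (hg _ (hsm ν) _).imp fun U h => h.1) fun μ ν hne q hq h => ?_
    · obtain ⟨S, hS, hS'⟩ := ccc_PP.exists_niceReal x
      have := hS.to_subtype
      exact ⟨q, le_rfl, ⟨S, inferInstance⟩, hx.imp fun U h => hS' U (mem_cN.1 h)⟩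
    · rcases lt_trichotomy (e μ) (e ν) with h1 | h1 | h1
      · exact hlt μ ν h1 q hq h
      · exact hne (e.injective h1)
      · exact hlt ν μ h1 q hq (h.imp fun _ h => h.symm)
  exact Forces.not_false ((h.and h2).imp fun _ h => h.1 h.2)

/-- terms generating a small subposet -/
inductive Tm (Z : Type) : Type
  | base : Tm Z
  | e : Tm Z → Z → Tm Z
  | m : Tm Z → Tm Z → Tm Z

/-- the names of the terms -/
def Tm.nm {Z : Type} (b : Name PP) (eN : Name PP → Z → Name PP) (mN : Name PP → Name PP → Name PP) :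
    Tm Z → Name PP
  | .base => b
  | .e x y => eN (x.nm b eN mN) y
  | .m x x' => mN (x.nm b eN mN) (x'.nm b eN mN)

theorem exists_sub {p0 : PP} {Q le F : Name PP} {Z : Type} (d : Z → Name PP)
    (h : Forces p0 fun U => IsPoset Mod.mem (Q.val U) (le.val U) ∧
      ∀ D, Mod.mem D (F.val U) → IsDense Mod.mem D (Q.val U) (le.val U)) :
    ∃ qn : Tm Z → Name PP, (∀ x, Forces p0 fun U => Mod.mem ((qn x).val U) (Q.val U)) ∧
      (∀ x y, Forces p0 fun U => App Mod.mem (le.val U) ((qn (.e x y)).val U) ((qn x).val U) ∧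
        (Mod.mem ((d y).val U) (F.val U) → Mod.mem ((qn (.e x y)).val U) ((d y).val U))) ∧
      ∀ x x', Forces p0 fun U =>
        Compat Mod.mem (Q.val U) (le.val U) ((qn x).val U) ((qn x').val U) →
        App Mod.mem (le.val U) ((qn (.m x x')).val U) ((qn x).val U) ∧
        App Mod.mem (le.val U) ((qn (.m x x')).val U) ((qn x').val U) := by
  obtain ⟨b, hb⟩ := max_principle fun U x => Mod.mem x (Q.val U)
  choose eN heN using fun (x : Name PP) (y : Z) => max_principle fun U z =>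
    Mod.mem z (Q.val U) ∧ App Mod.mem (le.val U) z (x.val U) ∧
      (Mod.mem ((d y).val U) (F.val U) → Mod.mem z ((d y).val U))
  choose mN hmN using fun (x x' : Name PP) => max_principle fun U z =>
    Mod.mem z (Q.val U) ∧ (Compat Mod.mem (Q.val U) (le.val U) (x.val U) (x'.val U) →
      App Mod.mem (le.val U) z (x.val U) ∧ App Mod.mem (le.val U) z (x'.val U))
  have h1 : ∀ (x : Name PP) y U, Set.Iic p0 ∈ U.1 → Mod.mem (x.val U) (Q.val U) → _ :=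
    fun x y U hU hx => heN x y U (by
      by_cases hd : Mod.mem ((d y).val U) (F.val U)
      · obtain ⟨z, hz, hz'⟩ := ((h U hU).2 _ hd).2 _ hx
        exact ⟨z, ((h U hU).2 _ hd).1 z hz, hz', fun _ => hz⟩
      · exact ⟨_, hx, (h U hU).1.2.1 _ hx, fun h => absurd h hd⟩)
  have h2 : ∀ (x x' : Name PP) (U : Gen PP), Set.Iic p0 ∈ U.1 → _ := fun x x' U hU => hmN x x' U (by
    by_cases hc : Compat Mod.mem (Q.val U) (le.val U) (x.val U) (x'.val U)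
    · obtain ⟨z, hz, hz'⟩ := hc
      exact ⟨z, hz, fun _ => hz'⟩
    · obtain ⟨z, hz⟩ := (h U hU).1.1
      exact ⟨z, hz, fun h => absurd h hc⟩)
  have h3 : ∀ x : Tm Z, Forces p0 fun U => Mod.mem ((x.nm b eN mN).val U) (Q.val U) := by
    intro x U hU
    induction x with
    | base => exact hb U (h U hU).1.1
    | e x y ih => exact (h1 _ y U hU ih).1
    | m x x' _ _ => exact (h2 _ _ U hU).1
  exact ⟨Tm.nm b eN mN, h3, fun x y U hU => (h1 _ y U hU (h3 x U hU)).2,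
    fun x x' U hU => (h2 _ _ U hU).2⟩

section main
variable {p0 : PP} {Q lq : Name PP} {X : Type} {qn : X → Name PP} {ι : X ↪ O} {α : O}
  {A : X → X → Set PP}

/-- the task coding the forced order of the names `qn` -/
def tk (ι : X ↪ O) (A : X → X → Set PP) : Set (C × O × O) :=
  {z | ∃ x y, ∃ r ∈ A x y, z = (r.1, ι x, ι y)}

variable (p0 lq qn) in
/-- densely below `r`, conditions extend `p0` and force `qn x ≤ qn y` -/
def Fo (r : C) (x y : X) : Prop := ∀ s : PP, le s.1 r → ∃ s' ≤ s, s' ≤ p0 ∧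
  Forces s' fun U => App Mod.mem (lq.val U) ((qn x).val U) ((qn y).val U)

variable (p0 lq qn α A) in
/-- the antichains capture the forced order and live below the stage `α` -/
structure Cap : Prop where
  sub : ∀ x y, ∀ r ∈ A x y, r ≤ p0 ∧
    Forces r fun U => App Mod.mem (lq.val U) ((qn x).val U) ((qn y).val U)
  max : ∀ x y, ∀ q ≤ p0, (Forces q fun U => App Mod.mem (lq.val U) ((qn x).val U) ((qn y).val U)) →
    ∃ r ∈ A x y, ∃ u, u ≤ r ∧ u ≤ q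
  sup : ∀ x y, ∀ r ∈ A x y, Sup α r.1
  sup0 : Sup α p0.1

theorem Below.mono {t : Set (C × O × O)} {r r' : C} {a b : O} (h : Below (leA α) t r a b)
    (hr : leA α r' r) : Below (leA α) t r' a b := fun r1 h1 =>
  h r1 (leA_iff.2 ⟨h1.1, hr.2.1, (leA_iff.1 h1).2.2.trans (leA_iff.1 hr).2.2⟩)

theorem Cap.fo (h : Cap p0 lq qn α A) {r : C} {a b : O} (hb : Below (leA α) (tk ι A) r a b)
    (hr : leA α r r) : ∃ x y, a = ι x ∧ b = ι y ∧ Fo p0 lq qn r x y := by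
  obtain ⟨_, -, _, -, x, y, _, -, e⟩ := hb r hr
  simp only [Prod.mk.injEq] at e
  obtain ⟨-, rfl, rfl⟩ := e
  refine ⟨x, y, rfl, rfl, fun s hs => ?_⟩
  obtain ⟨r2, h2, r', h3, x', y', r'', h4, e⟩ := hb (s.1.restr α)
    (leA_iff.2 ⟨sup_restr _ _, hr.1, hs.restr_le hr.1⟩)
  simp only [Prod.mk.injEq, EmbeddingLike.apply_eq_iff_eq] at e
  obtain ⟨rfl, rfl, rfl⟩ := e
  obtain ⟨u, u1, u2, -⟩ := amalg1 s.2 h2.1 (leA_iff.1 h2).2.2
  let u' : PP := ⟨u, u1.left⟩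
  have u3 : u' ≤ r'' := u2.trans (leA_iff.1 h3).2.2
  exact ⟨u', u1, u3.trans (h.sub _ _ _ h4).1, (h.sub _ _ _ h4).2.mono u3⟩

theorem Cap.below (h : Cap p0 lq qn α A) {r : C} {x y : X} (hf : Fo p0 lq qn r x y) :
    Below (leA α) (tk ι A) r (ι x) (ι y) := by
  intro r1 h1
  obtain ⟨s, s1, s2, s3⟩ := hf ⟨r1, (leA_iff.1 h1).2.2.left⟩ (leA_iff.1 h1).2.2
  obtain ⟨a, ha, u, u1, u2⟩ := h.max x y s s2 s3
  exact ⟨u.1.restr α, leA_iff.2 ⟨sup_restr _ _, h1.1, le.restr_le (u2.trans s1) h1.1⟩, a.1,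
    leA_iff.2 ⟨sup_restr _ _, h.sup _ _ _ ha, le.restr_le u1 (h.sup _ _ _ ha)⟩, x, y, a, ha, rfl⟩

theorem Fo.forces {r : C} {x y : X} (h : Fo p0 lq qn r x y) {s : PP} (hs : le s.1 r) :
    Forces s fun U => App Mod.mem (lq.val U) ((qn x).val U) ((qn y).val U) :=
  Forces.of_dn fun q hq => by
    obtain ⟨s', h1, -, h2⟩ := h q (le.trans hq hs)
    exact ⟨s', h1, h2⟩

theorem Cap.fo_of_forces (h : Cap p0 lq qn α A) {s : PP} (hs : s ≤ p0) {x y : X}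
    (hf : Forces p0 fun U => App Mod.mem (lq.val U) ((qn x).val U) ((qn y).val U)) :
    Fo p0 lq qn (s.1.restr α) x y := fun s' h1 =>
  have h2 : s' ≤ p0 := le.trans h1 (le.restr_le hs h.sup0)
  ⟨s', le_rfl, h2, hf.mono h2⟩

theorem Cap.isIt (h : Cap p0 lq qn α A)
    (hP : Forces p0 fun U => IsPoset Mod.mem (Q.val U) (lq.val U))
    (hq : ∀ x, Forces p0 fun U => Mod.mem ((qn x).val U) (Q.val U)) :
    IsIt (leA α) (RT (leA α) (tk ι A)) := by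
  have hl : ∀ {r r1 : C}, leA α r1 r → leA α r1 r1 := fun h1 =>
    leA_iff.2 ⟨h1.1, h1.1, (leA_iff.1 h1).2.2.left⟩
  have left : ∀ r a b, Below (leA α) (tk ι A) r a b → Below (leA α) (tk ι A) r a a := by
    intro r a b hb r1 h1
    obtain ⟨x, y, rfl, rfl, hf⟩ := h.fo (hb.mono h1) (hl h1)
    refine h.below (fun s hs => ?_) r1 (hl h1)
    obtain ⟨s', s1, s2, -⟩ := hf s hs
    exact ⟨s', s1, s2, ((hP.and (hq x)).mono s2).imp fun U h => h.1.2.1 _ h.2⟩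
  have trans : ∀ r a b c, Below (leA α) (tk ι A) r a b → Below (leA α) (tk ι A) r b c →
      Below (leA α) (tk ι A) r a c := by
    intro r a b c hb hc r1 h1
    obtain ⟨x, y, rfl, rfl, hf⟩ := h.fo (hb.mono h1) (hl h1)
    obtain ⟨y', z, e, rfl, hf'⟩ := h.fo (hc.mono h1) (hl h1)
    obtain rfl := ι.injective e
    refine h.below (fun s hs => ?_) r1 (hl h1)
    obtain ⟨s', s1, s2, s3⟩ := hf s hs
    exact ⟨s', s1, s2, fun U hU => (hP.mono s2 U hU).2.2 _ _ _ ((hq x).mono s2 U hU)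
      ((hq y).mono s2 U hU) ((hq z).mono s2 U hU) (s3 U hU) (hf'.forces (le.trans s1 hs) U hU)⟩
  refine ⟨?_, ?_, ?_, ?_, fun r => Or.inl ⟨rfl, rfl⟩⟩
  · rintro r r' x y hr (h1 | ⟨a, rfl, ⟨rfl, h1⟩ | ⟨b, rfl, h1⟩⟩)
    · exact Or.inl h1
    · exact Or.inr ⟨a, rfl, Or.inl ⟨rfl, h1.mono hr⟩⟩
    · exact Or.inr ⟨a, rfl, Or.inr ⟨b, rfl, h1.mono hr⟩⟩
  · rintro r x y z (⟨rfl, rfl⟩ | ⟨a, rfl, ⟨rfl, h1⟩ | ⟨b, rfl, h1⟩⟩) h2
    · exact h2
    · rcases h2 with ⟨-, rfl⟩ | ⟨b, e, -⟩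
      · exact Or.inr ⟨a, rfl, Or.inl ⟨rfl, h1⟩⟩
      · simp at e
    · rcases h2 with ⟨e, -⟩ | ⟨b', e, ⟨rfl, -⟩ | ⟨c, rfl, h2⟩⟩
      · simp at e
      · exact Or.inr ⟨a, rfl, Or.inl ⟨rfl, left _ _ _ h1⟩⟩
      · obtain rfl : b = b' := by simpa using e
        exact Or.inr ⟨a, rfl, Or.inr ⟨c, rfl, trans _ _ _ _ h1 h2⟩⟩
  · rintro r x y (⟨rfl, rfl⟩ | ⟨a, rfl, ⟨rfl, h1⟩ | ⟨b, rfl, h1⟩⟩)
    · exact Or.inl ⟨rfl, rfl⟩
    · exact Or.inr ⟨a, rfl, Or.inr ⟨a, rfl, h1⟩⟩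
    · exact Or.inr ⟨a, rfl, Or.inr ⟨a, rfl, left _ _ _ h1⟩⟩
  · rintro r x (⟨rfl, -⟩ | ⟨a, rfl, ⟨-, h1⟩ | ⟨b, -, h1⟩⟩)
    · exact Or.inl ⟨rfl, rfl⟩
    · exact Or.inr ⟨a, rfl, Or.inl ⟨rfl, h1⟩⟩
    · exact Or.inr ⟨a, rfl, Or.inl ⟨rfl, left _ _ _ h1⟩⟩

theorem Cap.of_RT (h : Cap p0 lq qn α A) {r : C} (hr : leA α r r) {v : Option Y} {x : X}
    (hv : RT (leA α) (tk ι A) r v (some (Sum.inl (ι x)))) :
    ∃ x', v = some (Sum.inl (ι x')) ∧ Fo p0 lq qn r x' x := by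
  rcases hv with ⟨-, e⟩ | ⟨a, rfl, ⟨e, -⟩ | ⟨b, e, h1⟩⟩
  · simp at e
  · simp at e
  · obtain ⟨x', y, rfl, rfl, hf⟩ := h.fo h1 hr
    obtain rfl : x = y := by simpa using e
    exact ⟨x', rfl, hf⟩

theorem Cap.of_RT_self (h : Cap p0 lq qn α A) {r : C} (hr : leA α r r) {v : Option Y}
    (hv : RT (leA α) (tk ι A) r v v) (hn : v ≠ none) :
    ∃ x, v = some (Sum.inl (ι x)) ∧ Fo p0 lq qn r x x := by
  rcases hv with ⟨e, -⟩ | ⟨a, rfl, ⟨e, -⟩ | ⟨b, e, h1⟩⟩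
  · exact absurd e hn
  · exact absurd e hn
  · obtain ⟨x', y, rfl, rfl, hf⟩ := h.fo h1 hr
    obtain rfl : x' = y := by simpa using e
    exact ⟨x', rfl, hf⟩

theorem generic_case {Z : Type} {qn : Tm Z → Name PP} {ι : Tm Z ↪ O} {A : Tm Z → Tm Z → Set PP}
    {F : Name PP} {Z1 : Type 1} {d : Z1 → Name PP} (u : Z1 ≃ Z)
    (h : Cap p0 lq qn α A) (hR : R α = RT (leA α) (tk ι A))
    (hP : Forces p0 fun U => IsPoset Mod.mem (Q.val U) (lq.val U))
    (hq : ∀ x, Forces p0 fun U => Mod.mem ((qn x).val U) (Q.val U))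
    (he : ∀ x y, Forces p0 fun U => App Mod.mem (lq.val U) ((qn (.e x y)).val U) ((qn x).val U) ∧
      (Mod.mem ((d (u.symm y)).val U) (F.val U) →
        Mod.mem ((qn (.e x y)).val U) ((d (u.symm y)).val U)))
    (hd : Forces p0 fun U => ∀ D, Mod.mem D (F.val U) → Mod.mem D ((fam d).val U)) :
    Forces p0 fun U => ∃ G, IsFilter Mod.mem G (Q.val U) (lq.val U) ∧
      ∀ D, Mod.mem D (F.val U) → ∃ x, Mod.mem x G ∧ Mod.mem x D := by
  let H : Name PP := .mk {z : PP × ULift.{1} (Tm Z) // z.1.1.f α = some (Sum.inl (ι z.2.down))}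
    (fun z => qn z.1.2.down) fun z => z.1.1
  have hH : ∀ (s : PP) x, s.1.f α = some (Sum.inl (ι x)) →
      Forces s fun U => Mod.mem ((qn x).val U) (H.val U) := fun s x hs =>
    forces_el_mem (b := H) ⟨(s, ⟨x⟩), hs⟩ le_rfl
  have L1 : ∀ s ≤ p0, ∃ s' ≤ s, ∃ x, s'.1.f α = some (Sum.inl (ι x)) := by
    intro s hs
    by_cases hn : s.1.f α = none
    · have : le (s.1.upd α (some (Sum.inl (ι .base)))) s.1 := upd_le s.2 (by
        rw [hR, hn]
        exact Or.inr ⟨_, rfl, Or.inl ⟨rfl, h.below (h.fo_of_forces hs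
          ((hP.and (hq _)).imp fun U h => h.1.2.1 _ h.2))⟩⟩)
      exact ⟨⟨_, this.left⟩, this, .base, upd_self _ _ _⟩
    · obtain ⟨x, hx, -⟩ := h.of_RT_self (s.2.restr α) (hR ▸ s.2.2 α) hn
      exact ⟨s, le_rfl, x, hx⟩
  have L2 : ∀ s s1 : PP, s ≤ s1 → ∀ x, s1.1.f α = some (Sum.inl (ι x)) →
      ∃ x', s.1.f α = some (Sum.inl (ι x')) ∧
        Forces s fun U => App Mod.mem (lq.val U) ((qn x').val U) ((qn x).val U) := by
    intro s s1 hs x hx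
    obtain ⟨x', h1, h2⟩ := h.of_RT (s.2.restr α) (hR ▸ hx ▸ hs.2 α)
    exact ⟨x', h1, h2.forces (s.2.le_restr α)⟩
  have L3 : ∀ s ≤ p0, ∀ y, ∃ s' ≤ s, ∃ x, s'.1.f α = some (Sum.inl (ι (.e x y))) := by
    intro s hs y
    obtain ⟨s1, h1, x, hx⟩ := L1 s hs
    have : le (s1.1.upd α (some (Sum.inl (ι (.e x y))))) s1.1 := upd_le s1.2 (by
      rw [hR, hx]
      exact Or.inr ⟨_, rfl, Or.inr ⟨_, rfl, h.below (h.fo_of_forces (h1.trans hs)
        ((he x y).imp fun U h => h.1))⟩⟩)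
    exact ⟨⟨_, this.left⟩, le.trans this h1, x, upd_self _ _ _⟩
  have f1 : Forces p0 fun U => ∀ z, Mod.mem z (H.val U) → Mod.mem z (Q.val U) :=
    forces_forall_mem (b := H) fun i q hq' _ => ⟨q, le_rfl, (hq _).mono hq'⟩
  have f2 : Forces p0 fun U => ∃ z, Mod.mem z (H.val U) := Forces.of_dn fun s hs => by
    obtain ⟨s', h1, x, hx⟩ := L1 s hs
    exact ⟨s', h1, (hH s' x hx).imp fun U h => ⟨_, h⟩⟩
  have f3 : Forces p0 fun U => ∀ z, Mod.mem z (H.val U) → ∀ z', Mod.mem z' (H.val U) →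
      ∃ w, Mod.mem w (H.val U) ∧ App Mod.mem (lq.val U) w z ∧ App Mod.mem (lq.val U) w z' := by
    refine forces_forall_mem (b := H) fun i q _ hi => ⟨q, le_rfl,
      forces_forall_mem (b := H) fun j s hs hj => ⟨s, le_rfl, ?_⟩⟩
    obtain ⟨x, h1, h2⟩ := L2 s _ (hs.trans hi) _ i.2
    obtain ⟨x', h3, h4⟩ := L2 s _ hj _ j.2
    obtain rfl : x = x' := by simpa using h1.symm.trans h3
    exact ((hH s x h1).and (h2.and h4)).imp fun U h => ⟨_, h⟩
  have f4 : Forces p0 fun U => ∀ D, Mod.mem D ((fam d).val U) → Mod.mem D (F.val U) →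
      ∃ z, Mod.mem z (H.val U) ∧ Mod.mem z D := by
    refine forces_forall_mem_fam fun y s hs => ?_
    obtain ⟨s', h1, x, hx⟩ := L3 s hs (u y)
    refine ⟨s', h1, ((hH s' _ hx).and ((he x (u y)).mono (h1.trans hs))).imp fun U h hD => ?_⟩
    rw [u.symm_apply_apply] at h
    exact ⟨_, h.1, h.2.2 hD⟩
  intro U hU
  obtain ⟨G, hG⟩ := Mod.sep (fun U z => ∃ w, Mod.mem w (H.val U) ∧ App Mod.mem (lq.val U) w z) U
    (Q.val U)
  have g1 : ∀ z, Mod.mem z (H.val U) → Mod.mem z G := fun z hz =>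
    (hG z).2 ⟨f1 U hU z hz, z, hz, (hP U hU).2.1 z (f1 U hU z hz)⟩
  refine ⟨G, ⟨fun z hz => ((hG z).1 hz).1, (f2 U hU).imp g1, fun x y hx hy hxy => ?_,
    fun x y hx hy => ?_⟩, fun D hD => ?_⟩
  · obtain ⟨hx1, w, hw, hw'⟩ := (hG x).1 hx
    exact (hG y).2 ⟨hy, w, hw, (hP U hU).2.2 _ _ _ (f1 U hU w hw) hx1 hy hw' hxy⟩
  · obtain ⟨hx1, w, hw, hw'⟩ := (hG x).1 hx
    obtain ⟨hy1, v, hv, hv'⟩ := (hG y).1 hy
    obtain ⟨z, hz, z1, z2⟩ := f3 U hU w hw v hv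
    exact ⟨z, g1 z hz, (hP U hU).2.2 _ _ _ (f1 U hU z hz) (f1 U hU w hw) hx1 z1 hw',
      (hP U hU).2.2 _ _ _ (f1 U hU z hz) (f1 U hU v hv) hy1 z2 hv'⟩
  · obtain ⟨z, hz, hz'⟩ := f4 U hU D (hd U hU D hD) hD
    exact ⟨z, g1 z hz, hz'⟩

theorem killer_case {Z : Type} {qn : Tm Z → Name PP} {ι : Tm Z ↪ O} {A : Tm Z → Tm Z → Set PP}
    (h : Cap p0 lq qn α A) {F0 : Fam} (hbad : IsBad (leA α) (RT (leA α) (tk ι A)) F0)
    (hR : R α = RK (leA α) F0)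
    (hP : Forces p0 fun U => IsPoset Mod.mem (Q.val U) (lq.val U))
    (hC : Forces p0 fun U => IsCCC Mod.mem (Q.val U) (lq.val U) (wN.val U))
    (hq : ∀ x, Forces p0 fun U => Mod.mem ((qn x).val U) (Q.val U))
    (hm : ∀ x x', Forces p0 fun U =>
        Compat Mod.mem (Q.val U) (lq.val U) ((qn x).val U) ((qn x').val U) →
        App Mod.mem (lq.val U) ((qn (.m x x')).val U) ((qn x).val U) ∧
        App Mod.mem (lq.val U) ((qn (.m x x')).val U) ((qn x').val U)) : False := by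
  obtain ⟨hv, hs, ht, hno⟩ := hbad
  have hI0 : ¬ {ξ | (F0.p ξ).2 ≠ none}.Countable := by
    intro hc
    obtain ⟨ξ, hξ, η, hη, hne, r, r1, r2, hk⟩ := (star_leA α).general
      (not_countable_diff Set.not_countable_univ hc) (fun ξ => (F0.p ξ).1) F0.s F0.t
      (fun ξ _ => (hv ξ).1) (hs.mono (Set.subset_univ _)) (ht.mono (Set.subset_univ _))
    exact hno ⟨ξ, η, hne, (r, none), ⟨r1, Or.inl ⟨rfl, not_not.1 hξ.2⟩⟩,
      ⟨r2, Or.inl ⟨rfl, not_not.1 hη.2⟩⟩, hk⟩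
  have h1 : ∀ ξ, ∃ x, (F0.p ξ).2 ≠ none →
      (F0.p ξ).2 = some (Sum.inl (ι x)) ∧ Fo p0 lq qn (F0.p ξ).1 x x := fun ξ => by
    by_cases hn : (F0.p ξ).2 = none
    · exact ⟨.base, fun h => absurd hn h⟩
    · exact (h.of_RT_self (hv ξ).1 (hv ξ).2 hn).imp fun x hx _ => hx
  choose xx hxx using h1
  have h2 : ∀ ξ, le ((F0.p ξ).1.upd α (some (Sum.inr {ξ}))) (F0.p ξ).1 := fun ξ =>
    upd_le (leA_iff.1 (hv ξ).1).2.2 (by
      rw [hR, (hv ξ).1.1.restr_eq, (hv ξ).1.1.none le_rfl]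
      refine ⟨⟨fun η hη => ?_, fun η hη ζ hζ hne => ?_⟩, Finset.empty_subset _⟩
      · rw [Finset.mem_singleton.1 hη]; exact (hv ξ).1
      · exact absurd ((Finset.mem_singleton.1 hη).trans (Finset.mem_singleton.1 hζ).symm) hne)
  let k : W1 → PP := fun ξ => ⟨_, (h2 ξ).left⟩
  have anti : ∀ ξ η, (F0.p ξ).2 ≠ none → (F0.p η).2 ≠ none → ξ ≠ η → ∀ s ≤ p0, s ≤ k ξ → s ≤ k η →
      Forces s fun U =>
        ¬ Compat Mod.mem (Q.val U) (lq.val U) ((qn (xx ξ)).val U) ((qn (xx η)).val U) := by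
    intro ξ η hξ hη hne s hs s1 s2
    refine forces_not_iff.2 fun s' hs' hc => ?_
    have g1 := (((hm (xx ξ) (xx η)).mono (hs'.trans hs)).and hc).imp fun U h => h.1 h.2
    obtain ⟨a1, ha1, u1, u11, u12⟩ := h.max _ _ s' (hs'.trans hs) (g1.imp fun _ h => h.1)
    obtain ⟨a2, ha2, u2, u21, u22⟩ := h.max _ _ u1 (u12.trans (hs'.trans hs))
      ((g1.mono u12).imp fun _ h => h.2)
    have key : ∀ ζ, (F0.p ζ).2 ≠ none → u2 ≤ k ζ → ∀ a ∈ A (.m (xx ξ) (xx η)) (xx ζ), u2 ≤ a →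
        two (leA α) (RT (leA α) (tk ι A)) (u2.1.restr α, some (Sum.inl (ι (.m (xx ξ) (xx η)))))
          (F0.p ζ) := by
      intro ζ hζ g2 a ha g3
      refine ⟨leA_iff.2 ⟨sup_restr _ _, (hv ζ).1.1, le.restr_le (le.trans g2 (h2 ζ)) (hv ζ).1.1⟩,
        Or.inr ⟨_, rfl, Or.inr ⟨_, (hxx ζ hζ).1, fun r1 g4 => ⟨r1, ?_, a.1, ?_, _, _, a, ha, rfl⟩⟩⟩⟩
      · exact leA_iff.2 ⟨g4.1, g4.1, (leA_iff.1 g4).2.2.left⟩
      · exact leA_iff.2 ⟨g4.1, h.sup _ _ _ ha,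
          (leA_iff.1 g4).2.2.trans (le.restr_le g3 (h.sup _ _ _ ha))⟩
    have k1 : u2 ≤ k ξ := u22.trans (u12.trans (hs'.trans s1))
    have k2 : u2 ≤ k η := u22.trans (u12.trans (hs'.trans s2))
    have v1 := k1.2 α
    have v2 := k2.2 α
    rw [hR] at v1 v2
    simp only [k, upd_self] at v1 v2
    exact hno ⟨ξ, η, hne, _, key ξ hξ k1 a1 ha1 (u22.trans u11), key η hη k2 a2 ha2 u21,
      v1.1.2 ξ (v1.2 (Finset.mem_singleton_self ξ)) η (v2.2 (Finset.mem_singleton_self η)) hne⟩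
  obtain ⟨ξ0, hξ0, p1, hp1, hmany⟩ := ccc_PP.exists_many hI0 k
  obtain ⟨p2, hp2, hp20, -⟩ := (hxx ξ0 hξ0).2 p1 (le.trans hp1 (h2 ξ0))
  let An : Name PP := .mk {ξ | (F0.p ξ).2 ≠ none} (fun ξ => qn (xx ξ)) fun ξ => k ξ
  have f1 : Forces p2 fun U => IsSub Mod.mem (An.val U) (Q.val U) :=
    forces_forall_mem (b := An) (Φ := fun U z => Mod.mem z (Q.val U))
      fun i q hq' _ => ⟨q, le_rfl, (hq _).mono (hq'.trans hp20)⟩
  have f2 : Forces p2 fun U => ∀ x, Mod.mem x (An.val U) → ∀ y, Mod.mem y (An.val U) → x ≠ y →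
      ¬ Compat Mod.mem (Q.val U) (lq.val U) x y := by
    refine forces_forall_mem (b := An) fun i q hq' hi => ⟨q, le_rfl,
      forces_forall_mem (b := An) fun j s hs hj => ⟨s, le_rfl, ?_⟩⟩
    by_cases e : i = j
    · subst e
      exact Forces.of_forall (fun U h => absurd rfl h) s
    · exact (anti i.1 j.1 i.2 j.2 (fun h => e (Subtype.ext h)) s (hs.trans (hq'.trans hp20))
        (hs.trans hi) hj).imp fun U h _ => h
  obtain ⟨j, hj⟩ := Forces.exists_name (Φ := fun U j => IsInj Mod.mem j (An.val U) (wN.val U))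
    (((hC.mono hp20).and (f1.and f2)).imp fun U h => h.1 _ h.2.1 fun x y hx hy => h.2.2 x hx y hy)
  have h3 : ∀ ξ, ∃ r : PP, (∃ r, r ≤ p2 ∧ r ≤ k ξ) → r ≤ p2 ∧ r ≤ k ξ := fun ξ => by
    by_cases hr : ∃ r, r ≤ p2 ∧ r ≤ k ξ
    · exact hr.imp fun r h _ => h
    · exact ⟨p2, fun h => absurd h hr⟩
  choose c hc using h3
  refine ccc_PP.not_forces_inj (fun f => exists_fiber f (hmany p2 hp2)) (fun ξ => qn (xx ξ))
    (fun n : ULift.{1} ℕ => natName n.down) (j := j) (A := An) c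
    (fun ξ hξ => (hj.mono (hc ξ hξ.2).1).and (forces_el_mem (b := An) ⟨ξ, hξ.1⟩ (hc ξ hξ.2).2))
    fun ξ hξ η hη hne r r1 r2 e => Forces.not_false (p := r) fun U hU => ?_
  have r0 : r ≤ p0 := r1.trans ((hc ξ hξ.2).1.trans hp20)
  have g := anti ξ η hξ.1 hη.1 hne r r0 (r1.trans (hc ξ hξ.2).2) (r2.trans (hc η hη.2).2) U hU
  have g2 := (hq (xx η)).mono r0 U hU
  simp only [e U hU] at g
  exact g ⟨_, g2, (hP.mono r0 U hU).2.1 _ g2, (hP.mono r0 U hU).2.1 _ g2⟩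

end main

theorem ma_holds (U : Gen PP) : MA Mod.mem (wN.val U) (cN.val U) := by
  refine of_forces_all (Φ := fun U => MA Mod.mem (wN.val U) (cN.val U)) (fun p => ⟨p, le_rfl, ?_⟩) U
  refine forces_forall fun Q => forces_forall fun lq => forces_forall fun F =>
    forces_imp fun q1 _ hP => ⟨q1, le_rfl, forces_imp fun q2 h2 hC => ⟨q2, le_rfl,
      forces_imp fun q3 h3 hD => ⟨q3, le_rfl, forces_imp fun q4 h4 hF => ?_⟩⟩⟩
  obtain ⟨p0, h0, Z1, hZ, d, hd⟩ := exists_small_cover hF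
  replace hP := hP.mono (h0.trans (h4.trans (h3.trans h2)))
  replace hC := hC.mono (h0.trans (h4.trans h3))
  replace hD := hD.mono (h0.trans h4)
  obtain ⟨qn, hq, he, hm⟩ := exists_sub (fun y => d ((equivShrink.{0} Z1).symm y)) (hP.and hD)
  obtain ⟨ι⟩ : Nonempty (Tm (Shrink.{0} Z1) ↪ O) :=
    nonempty_embedding_to_cardinal.map fun e => e.trans ⟨_, ord_injective⟩
  choose A hA1 hA2 hA3 using fun x y => ccc_PP.exists_antichain {r | r ≤ p0 ∧
    Forces r fun U => App Mod.mem (lq.val U) ((qn x).val U) ((qn y).val U)}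
  have : ∀ x y, Countable (A x y) := fun x y => (hA2 x y).to_subtype
  obtain ⟨α1, hα1⟩ := exists_sup_small fun z : Σ x y, A x y => z.2.2.1.1
  obtain ⟨α2, hα2⟩ := exists_sup p0.1
  have hsm : Small.{0} (tk ι A) := small_of_surjective
    (f := fun z : Σ x y, A x y => (⟨(z.2.2.1.1, ι z.1, ι z.2.1), _, _, _, z.2.2.2, rfl⟩ : tk ι A))
    fun ⟨_, x, y, r, hr, e⟩ => ⟨⟨x, y, r, hr⟩, Subtype.ext e.symm⟩
  obtain ⟨α, hα, hα'⟩ := exists_task.choose_spec (tk ι A) hsm (max α1 α2)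
  have hcap : Cap p0 lq qn α A := ⟨fun x y r hr => hA1 x y hr, fun x y q hq h => hA3 x y q ⟨hq, h⟩,
    fun x y r hr => (hα1 ⟨x, y, r, hr⟩).mono ((le_max_left _ _).trans hα),
    hα2.mono ((le_max_right _ _).trans hα)⟩
  have hR := R_eq α
  rw [show task α = tk ι A from hα', step, if_pos (hcap.isIt hP hq)] at hR
  split_ifs at hR with hb
  · exact (killer_case hcap hb.choose_spec hR hP hC hq hm).elim
  · exact ⟨p0, h0, generic_case (equivShrink.{0} Z1) hcap hR hP hq he hd⟩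

end Pool.Agent.P.MP_93aff1_lc
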