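import Pool.Agent.P.MP_93aff1_lc.Defs

set_option autoImplicit false

/-! In every model of ZFC: if `f[A] ∩ B` is countable for all Lipschitz `f`, then no Lipschitz map
injects `A` into `B`. -/

open Pool.Agent.Lib.PosetForcing

namespace Pool.Agent.P.MP_93aff1_lc.Derive

universe v

variable {M : Type v} {mem : M → M → Prop}

def fOr (φ ψ : Fml) : Fml := .neg (.and (.neg φ) (.neg ψ))

def fIff (φ ψ : Fml) : Fml := .and (.neg (.and φ (.neg ψ))) (.neg (.and ψ (.neg φ)))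

def fEx (i : ℕ) (φ : Fml) : Fml := .neg (.all i (.neg φ))

def fUP (p a b : ℕ) : Fml := .all 20 (fIff (.mem 20 p) (fOr (.eq 20 a) (.eq 20 b)))

def fPair (p a b : ℕ) : Fml := .all 21 (fIff (.mem 21 p) (fOr (fUP 21 a a) (fUP 21 a b)))

def fApp (f x y : ℕ) : Fml := fEx 22 (.and (.mem 22 f) (fPair 22 x y))

theorem sat_mem' (i j : ℕ) (v : ℕ → M) : Sat mem (.mem i j) v ↔ mem (v i) (v j) := Iff.rfl

theorem sat_eq' (i j : ℕ) (v : ℕ → M) : Sat mem (.eq i j) v ↔ v i = v j := Iff.rfl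

theorem sat_neg' (φ : Fml) (v : ℕ → M) : Sat mem (.neg φ) v ↔ ¬ Sat mem φ v := Iff.rfl

theorem sat_and' (φ ψ : Fml) (v : ℕ → M) : Sat mem (.and φ ψ) v ↔ Sat mem φ v ∧ Sat mem ψ v :=
  Iff.rfl

theorem sat_all' (i : ℕ) (φ : Fml) (v : ℕ → M) :
    Sat mem (.all i φ) v ↔ ∀ x, Sat mem φ (Function.update v i x) := Iff.rfl

theorem sat_or (φ ψ : Fml) (v : ℕ → M) : Sat mem (fOr φ ψ) v ↔ Sat mem φ v ∨ Sat mem ψ v := by
  simp only [fOr, sat_neg', sat_and']; tauto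

theorem sat_iff (φ ψ : Fml) (v : ℕ → M) : Sat mem (fIff φ ψ) v ↔ (Sat mem φ v ↔ Sat mem ψ v) := by
  simp only [fIff, sat_neg', sat_and']; tauto

theorem sat_ex (i : ℕ) (φ : Fml) (v : ℕ → M) :
    Sat mem (fEx i φ) v ↔ ∃ x, Sat mem φ (Function.update v i x) := by
  simp [fEx, sat_neg', sat_all']

theorem sat_up {p a b : ℕ} (hp : p ≠ 20) (ha : a ≠ 20) (hb : b ≠ 20) (v : ℕ → M) :
    Sat mem (fUP p a b) v ↔ IsUPair mem (v p) (v a) (v b) := by
  simp [fUP, sat_mem', sat_eq', sat_all', sat_iff, sat_or, IsUPair, hp, ha, hb]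

theorem sat_pair {p a b : ℕ} (hp : p ≠ 21) (ha : a < 20) (hb : b < 20) (v : ℕ → M) :
    Sat mem (fPair p a b) v ↔ IsPair mem (v p) (v a) (v b) := by
  have h1 : a ≠ 20 := by omega
  have h2 : b ≠ 20 := by omega
  have h3 : a ≠ 21 := by omega
  have h4 : b ≠ 21 := by omega
  simp [fPair, sat_mem', sat_all', sat_iff, sat_or, IsPair, sat_up (p := 21) (by omega) h1 h1,
    sat_up (p := 21) (by omega) h1 h2, hp, h3, h4]

theorem sat_app {f x y : ℕ} (hf : f < 20) (hx : x < 20) (hy : y < 20) (v : ℕ → M) :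
    Sat mem (fApp f x y) v ↔ App mem (v f) (v x) (v y) := by
  have h1 : f ≠ 22 := by omega
  have h2 : x ≠ 22 := by omega
  have h3 : y ≠ 22 := by omega
  simp [fApp, sat_mem', sat_and', sat_ex, App, sat_pair (p := 22) (by omega) hx hy, h1, h2, h3]

theorem pair_ex (hZ : IsZFC mem) (a b : M) : ∃ p, IsPair mem p a b := by
  obtain ⟨s, hs⟩ := hZ.pair a a
  obtain ⟨t, ht⟩ := hZ.pair a b
  obtain ⟨p, hp⟩ := hZ.pair s t
  refine ⟨p, fun x => (hp x).trans ⟨?_, ?_⟩⟩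
  · rintro (rfl | rfl)
    · exact .inl hs
    · exact .inr ht
  · rintro (h | h)
    · exact .inl (hZ.ext _ _ fun z => (h z).trans (hs z).symm)
    · exact .inr (hZ.ext _ _ fun z => (h z).trans (ht z).symm)

theorem pair_inj (hZ : IsZFC mem) {p a b c d : M} (h : IsPair mem p a b) (h' : IsPair mem p c d) :
    a = c ∧ b = d := by
  obtain ⟨s, hs⟩ := hZ.pair a a
  obtain ⟨t, ht⟩ := hZ.pair a b
  obtain ⟨u, hu⟩ := hZ.pair c d
  have hac : a = c := by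
    rcases (h' s).1 ((h s).2 (.inl hs)) with e | e
    · exact ((hs c).1 ((e c).2 (.inl rfl))).elim Eq.symm Eq.symm
    · exact ((hs c).1 ((e c).2 (.inl rfl))).elim Eq.symm Eq.symm
  subst hac
  refine ⟨rfl, ?_⟩
  have h1 : b = a ∨ b = d := by
    rcases (h' t).1 ((h t).2 (.inr ht)) with e | e
    · exact .inl (((e b).1 ((ht b).2 (.inr rfl))).elim id id)
    · exact (e b).1 ((ht b).2 (.inr rfl))
  have h2 : d = a ∨ d = b := by
    rcases (h u).1 ((h' u).2 (.inr hu)) with e | e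
    · exact .inl (((e d).1 ((hu d).2 (.inr rfl))).elim id id)
    · exact (e d).1 ((hu d).2 (.inr rfl))
  rcases h1 with h1 | h1
  · rcases h2 with h2 | h2
    · exact h1.trans h2.symm
    · exact h2.symm
  · exact h1

theorem not_baLip (hZ : IsZFC mem) {w w1 C A B : M} (ho : IsOmega mem w)
    (hw : IsOmega1 mem w1 w) (hC : IsPow mem C w)
    (hA : Aleph1Dense mem A C w w1) (hB : Aleph1Dense mem B C w w1)
    (h : ∀ f, IsLipschitz mem f C w → ∀ S,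
      (∀ y, mem y S → mem y B ∧ ∃ x, mem x A ∧ App mem f x y) → LeCard mem S w) :
    ¬ BALip mem w w1 C := by
  intro hba
  obtain ⟨f, hf, hfB, hfi⟩ := hba A B hA hB
  obtain ⟨S, hS⟩ := hZ.sep (fEx 3 (.and (.mem 3 1) (fApp 2 3 0)))
    (fun i => if i = 1 then A else f) B
  have hS' : ∀ y, mem y S ↔ mem y B ∧ ∃ x, mem x A ∧ App mem f x y := fun y => by
    rw [hS, sat_ex]
    simp [sat_mem', sat_and', sat_app]
  obtain ⟨j, hj, hji⟩ := h f hf S fun y hy => (hS' y).1 hy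
  have hw' : mem w C := (hC w).2 fun _ hx => hx
  obtain ⟨⟨e, he, -⟩, -⟩ := ho.1
  obtain ⟨⟨i, hi, hii⟩, -⟩ := hA.2 C ⟨fun _ hx => hx, fun x _ => ⟨e, he, fun _ hy _ => hy⟩⟩
    ⟨w, hw'⟩ A fun x => ⟨fun hx => ⟨hx, hA.1 x hx⟩, fun hx => hx.1⟩
  have val : ∀ {g a b x y : M}, IsFun mem g a b → App mem g x y → mem x a ∧ mem y b := by
    rintro g a b x y hg ⟨p, hp, hxy⟩
    obtain ⟨x', y', h1, h2, h3⟩ := hg.1 p hp
    obtain ⟨rfl, rfl⟩ := pair_inj hZ hxy h1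
    exact ⟨h2, h3⟩
  let R : M → M → Prop := fun a n => ∃ x, App mem i a x ∧ ∃ y, App mem f x y ∧ App mem j y n
  have Rfun : ∀ a n n', R a n → R a n' → n = n' := by
    rintro a n n' ⟨x, h1, y, h2, h3⟩ ⟨x', h1', y', h2', h3'⟩
    obtain rfl := hi.2.2 a x x' h1 h1'
    obtain rfl := hf.1.2.2 x y y' h2 h2'
    exact hj.2.2 y n n' h3 h3'
  have Rtot : ∀ a, mem a w1 → ∃ n, R a n := fun a ha => by
    obtain ⟨x, hx⟩ := hi.2.1 a ha
    have hxA := (val hi hx).2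
    obtain ⟨y, hy⟩ := hf.1.2.1 x (hA.1 x hxA)
    obtain ⟨n, hn⟩ := hj.2.1 y ((hS' y).2 ⟨hfB x y hxA hy, x, hxA, hy⟩)
    exact ⟨n, x, hx, y, hy, hn⟩
  have Rinj : ∀ a a' n, R a n → R a' n → a = a' := by
    rintro a a' n ⟨x, h1, y, h2, h3⟩ ⟨x', h1', y', h2', h3'⟩
    obtain rfl := hji y y' n h3 h3'
    obtain rfl := hfi x x' y (val hi h1).2 (val hi h1').2 h2 h2'
    exact hii a a' x h1 h1'
  let φ : Fml := fEx 7 (.and (fEx 5 (.and (fApp 2 0 5) (fEx 6 (.and (fApp 3 5 6) (fApp 4 6 7)))))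
    (fPair 1 0 7))
  let v : ℕ → M := fun t => if t = 2 then i else if t = 3 then f else j
  have hφ : ∀ a p, Sat mem φ (Function.update (Function.update v 0 a) 1 p) ↔
      ∃ n, R a n ∧ IsPair mem p a n := fun a p => by
    simp [φ, v, R, sat_and', sat_ex, sat_app, sat_pair]
  obtain ⟨k, hk⟩ := hZ.repl φ v w1 fun a ha => by
    obtain ⟨n, hn⟩ := Rtot a ha
    obtain ⟨p, hp⟩ := pair_ex hZ a n
    refine ⟨p, (hφ a p).2 ⟨n, hn, hp⟩, fun q hq => ?_⟩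
    obtain ⟨n', hn', hq'⟩ := (hφ a q).1 hq
    obtain rfl := Rfun a n n' hn hn'
    exact hZ.ext _ _ fun z => (hq' z).trans (hp z).symm
  simp only [hφ] at hk
  have hkR : ∀ a n, App mem k a n → R a n := by
    rintro a n ⟨p, hp, han⟩
    obtain ⟨a', -, n', hR, hp'⟩ := (hk p).1 hp
    obtain ⟨rfl, rfl⟩ := pair_inj hZ han hp'
    exact hR
  refine hw.2.2.1 ⟨k, ⟨fun p hp => ?_, fun a ha => ?_, fun a n n' h1 h2 => ?_⟩,
    fun a a' n h1 h2 => Rinj a a' n (hkR a n h1) (hkR a' n h2)⟩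
  · obtain ⟨a, ha, n, ⟨x, h1, y, h2, h3⟩, hp'⟩ := (hk p).1 hp
    exact ⟨a, n, hp', ha, (val hj h3).2⟩
  · obtain ⟨n, hn⟩ := Rtot a ha
    obtain ⟨p, hp⟩ := pair_ex hZ a n
    exact ⟨n, p, (hk p).2 ⟨a, ha, n, hn, hp⟩, hp⟩
  · exact Rfun a n n' (hkR a n h1) (hkR a n' h2)

end Pool.Agent.P.MP_93aff1_lc.Derive
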