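import Pool.Agent.P.MP_93aff1_lc.MA

set_option autoImplicit false

/-! In the model every Lipschitz map sends only countably many points of `B` into the image
of `A`. -/

open Pool.Agent.Lib.PosetForcing Cardinal

namespace Pool.Agent.P.MP_93aff1_lc

theorem image_countable (U : Gen PP) : ∀ f, IsLipschitz Mod.mem f (cN.val U) (wN.val U) → ∀ S,
    (∀ y, Mod.mem y S → Mod.mem y ((fam (an true)).val U) ∧
      ∃ x, Mod.mem x ((fam (an false)).val U) ∧ App Mod.mem f x y) →
    LeCard Mod.mem S (wN.val U) := by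
  intro f hf S hS
  obtain ⟨f, rfl⟩ := f.exists_name
  obtain ⟨S, rfl⟩ := S.exists_name
  by_contra hn
  obtain ⟨p, hp⟩ := Ultrafilter.nonempty_of_mem (truth (Φ := (fun U : Gen PP =>
    IsLipschitz Mod.mem (f.val U) (cN.val U) (wN.val U) ∧
    (∀ y, Mod.mem y (S.val U) → Mod.mem y ((fam (an true)).val U) ∧
      ∃ x, Mod.mem x ((fam (an false)).val U) ∧ App Mod.mem (f.val U) x y) ∧
    ¬ LeCard Mod.mem (S.val U) (wN.val U) :)) ⟨hf, hS, hn⟩)
  let I : Set (List Bool × W1) :=
    {j | ∃ q ≤ p, Forces q fun U => Mod.mem ((an true j).val U) (S.val U)}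
  have hI : ¬ I.Countable := by
    intro hc
    obtain ⟨e, he⟩ := Set.countable_iff_exists_injective.1 hc
    have h1 : Forces p fun U => LeCard Mod.mem (S.val U) (wN.val U) := by
      refine forces_leCard (ι := I) (fun j => an true j.1) (fun j => nN (e j))
        (fun x q hq hx => ?_) (fun j => Forces.of_forall (natName_mem_omega _) _)
        fun i j hne q _ h => hne (he h.natName_inj)
      obtain ⟨r, hr, j, hj⟩ := Forces.exists_fam (((Forces.mono hp hq).and hx).imp
        fun U h => (h.1.2.1 _ h.2).1)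
      exact ⟨r, hr, ⟨j, r, hr.trans hq, ((hx.mono hr).and hj).imp fun U h => h.2 ▸ h.1⟩, hj⟩
    exact Forces.not_false ((Forces.and hp h1).imp fun _ h => h.1.2.2 h.2)
  have h1 : ∀ j, ∃ q ≤ p, ∃ i, j ∈ I → Forces q fun U =>
      App Mod.mem (f.val U) ((an false i).val U) ((an true j).val U) := by
    intro j
    by_cases hj : j ∈ I
    · obtain ⟨q, hq, h⟩ := hj
      obtain ⟨x, hx⟩ := Forces.exists_name (Φ := fun U x =>
        Mod.mem x ((fam (an false)).val U) ∧ App Mod.mem (f.val U) x ((an true j).val U))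
        (((Forces.mono hp hq).and h).imp fun U h => (h.1.2.1 _ h.2).2)
      obtain ⟨r, hr, i, hi⟩ := Forces.exists_fam (hx.imp fun _ h => h.1)
      exact ⟨r, hr.trans hq, i, fun _ => ((hx.mono hr).and hi).imp fun U h => h.2 ▸ h.1.2⟩
    · exact ⟨p, le_rfl, j, fun h => absurd h hj⟩
  choose q hq i hi using h1
  have inj : Function.Injective fun j : List Bool × W1 => ((j.1, emb j.2) : J) := fun j j' h => by
    simp only [Prod.mk.injEq] at h
    exact Prod.ext h.1 (emb.injective h.2)
  obtain ⟨ξ, hξ, η, hη, -, r, r1, r2, k, hk⟩ := star_le.general (κ := Unit) hI (fun j => (q j).1)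
    (fun j _ => ((i j).1, emb (i j).2)) (fun j _ => (j.1, emb j.2)) (fun j _ => (q j).2)
    (fun x => by
      by_contra hx
      obtain ⟨ξ, ⟨hξ, _, h1⟩, η, ⟨hη, _, h2⟩, hne, r, r1, r2⟩ := PP.ccc hx q
      have e : i ξ = i η := inj (h1.trans h2.symm)
      refine an_ne true hne r fun U hU => ?_
      exact (Forces.mono hp (r1.trans (hq ξ)) U hU).1.1.2.2 _ _ _
        ((hi ξ hξ).mono r1 U hU) (e ▸ (hi η hη).mono r2 U hU))
    (fun x => Set.Subsingleton.countable fun ξ ⟨_, _, h⟩ η ⟨_, _, h'⟩ => inj (h.trans h'.symm))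
  let r' : PP := ⟨r, r1.left⟩
  refine Forces.not_false (p := r') fun U hU => ?_
  have g1 := (Forces.mono hp (le_trans (show r' ≤ q ξ from r1) (hq ξ)) U hU).1.2 _ _ _ _ _
    (natName_mem_omega k U) ((hi ξ hξ).mono (show r' ≤ q ξ from r1) U hU)
    ((hi η hη).mono (show r' ≤ q η from r2) U hU) (agreeTo_nN.2 fun m hm => by
      obtain ⟨b, b1, b2⟩ := hk.1 () m hm
      exact (forces_bit (q := r') b1 U hU).trans (forces_bit (q := r') b2 U hU).symm)
  obtain ⟨m, hm, b, b1, b2⟩ := hk.2 ()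
  have g2 := ((forces_bit (q := r') b1 U hU).symm.trans (agreeTo_nN.1 g1 m hm)).trans
    (forces_bit (q := r') b2 U hU)
  simp at g2

end Pool.Agent.P.MP_93aff1_lc
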