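import Pool.Agent.P.MP_93aff1_lc.Star

set_option autoImplicit false

open Pool.Agent.Lib.PosetForcing Cardinal

namespace Pool.Agent.P.MP_93aff1_lc

/-- stages -/
abbrev O : Type 1 := Ordinal.{0}

/-- values of conditions of the iterands -/
abbrev Y : Type 1 := O ⊕ Finset W1

/-- raw conditions of the iteration -/
@[ext] structure C : Type 1 where
  /-- Cohen part -/
  c : Coh
  /-- iteration part -/
  f : O → Option Y
  fin : {γ | f γ ≠ none}.Finite

open Classical in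
/-- restriction to an initial segment -/
noncomputable def C.restr (p : C) (α : O) : C :=
  ⟨p.c, fun γ => if γ < α then p.f γ else none, p.fin.subset fun γ h => by
    by_cases hγ : γ < α <;> simp_all⟩

/-- the support is below `α` -/
def Sup (α : O) (p : C) : Prop := ∀ γ, p.f γ ≠ none → γ < α

@[simp] theorem restr_c (p : C) (α : O) : (p.restr α).c = p.c := rfl

theorem restr_f_of_lt {p : C} {α γ : O} (h : γ < α) : (p.restr α).f γ = p.f γ := if_pos h

theorem restr_f_of_ge {p : C} {α γ : O} (h : α ≤ γ) : (p.restr α).f γ = none := if_neg (not_lt.2 h)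

theorem restr_restr {p : C} {α γ : O} (h : γ ≤ α) : (p.restr α).restr γ = p.restr γ := by
  refine C.ext rfl (funext fun δ => ?_)
  rcases lt_or_ge δ γ with h1 | h1
  · rw [restr_f_of_lt h1, restr_f_of_lt h1, restr_f_of_lt (h1.trans_le h)]
  · rw [restr_f_of_ge h1, restr_f_of_ge h1]

theorem sup_restr (p : C) (α : O) : Sup α (p.restr α) := fun γ h => by
  by_contra hγ
  exact h (restr_f_of_ge (not_lt.1 hγ))

theorem Sup.none {p : C} {α γ : O} (h : Sup α p) (hγ : α ≤ γ) : p.f γ = none := by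
  by_contra h1
  exact absurd (h γ h1) (not_lt.2 hγ)

theorem Sup.restr_eq {p : C} {α : O} (h : Sup α p) : p.restr α = p := by
  refine C.ext rfl (funext fun δ => ?_)
  rcases lt_or_ge δ α with h1 | h1
  · exact restr_f_of_lt h1
  · rw [restr_f_of_ge h1, h.none h1]

theorem Sup.mono {p : C} {α β : O} (h : Sup α p) (hβ : α ≤ β) : Sup β p :=
  fun γ hγ => (h γ hγ).trans_le hβ

theorem exists_sup (p : C) : ∃ α, Sup α p := by
  obtain ⟨α, hα⟩ := p.fin.bddAbove
  exact ⟨Order.succ α, fun γ h => Order.lt_succ_iff.2 (hα h)⟩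

theorem exists_sup_small {ι : Type 1} [Small.{0} ι] (p : ι → C) : ∃ α, ∀ i, Sup α (p i) := by
  choose a ha using fun i => exists_sup (p i)
  obtain ⟨α, hα⟩ := Ordinal.bddAbove_of_small (s := Set.range a)
  exact ⟨α, fun i => (ha i).mono (hα ⟨i, rfl⟩)⟩

/-- forced order relations of iterands -/
abbrev Rel : Type 1 := C → Option Y → Option Y → Prop

/-- axioms of an iterand -/
structure IsIt (le : C → C → Prop) (R : Rel) : Prop where
  mono : ∀ r r' x y, le r' r → R r x y → R r' x y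
  trans : ∀ r x y z, R r x y → R r y z → R r x z
  left : ∀ r x y, R r x y → R r x x
  top : ∀ r x, R r x x → R r x none
  nn : ∀ r, R r none none

/-- two-step iteration -/
def two (le : C → C → Prop) (R : Rel) (x y : C × Option Y) : Prop := le x.1 y.1 ∧ R x.1 x.2 y.2

/-- densely below `r` the pair `(a, b)` is listed in `t` -/
def Below (le : C → C → Prop) (t : Set (C × O × O)) (r : C) (a b : O) : Prop :=
  ∀ r1, le r1 r → ∃ r2, le r2 r1 ∧ ∃ r', le r2 r' ∧ (r', a, b) ∈ t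

/-- the iterand coded by a task -/
def RT (le : C → C → Prop) (t : Set (C × O × O)) : Rel := fun r x y =>
  (x = none ∧ y = none) ∨ ∃ a, x = some (Sum.inl a) ∧
    ((y = none ∧ Below le t r a a) ∨ ∃ b, y = some (Sum.inl b) ∧ Below le t r a b)

/-- the finite set coded by a value -/
def fs : Option Y → Finset W1
  | some (Sum.inr F) => F
  | _ => ∅

/-- families of conditions with tuples -/
structure Fam : Type 1 where
  /-- length of the tuples -/
  n : ℕ
  /-- conditions -/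
  p : W1 → C × Option Y
  /-- first tuples -/
  s : W1 → Fin n → J
  /-- second tuples -/
  t : W1 → Fin n → J

/-- a family witnessing the failure of the property for the two-step iteration -/
def IsBad (le : C → C → Prop) (R : Rel) (F : Fam) : Prop :=
  (∀ ξ, two le R (F.p ξ) (F.p ξ)) ∧ PC Set.univ F.s ∧ PC Set.univ F.t ∧
    ¬ ∃ ξ η, ξ ≠ η ∧ ∃ r, two le R r (F.p ξ) ∧ two le R r (F.p η) ∧
      ∃ k, GoodAt r.1.c k (F.s ξ) (F.s η) (F.t ξ) (F.t η)

/-- the killer iterand -/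
def RK (le : C → C → Prop) (F : Fam) : Rel := fun r x y =>
  Valid le C.c (fun ξ => (F.p ξ).1) F.s F.t r (fs x) ∧ fs y ⊆ fs x

open Classical in
/-- the iterand chosen for a task -/
noncomputable def step (t : Set (C × O × O)) (le : C → C → Prop) : Rel :=
  if IsIt le (RT le t) then
    (if h : ∃ F, IsBad le (RT le t) F then RK le h.choose else RT le t)
  else fun _ x y => x = none ∧ y = none

theorem isIt_step (t : Set (C × O × O)) {le : C → C → Prop}
    (htr : ∀ a b c, le a b → le b c → le a c) (hπ : ∀ a b, le a b → a.c ≤ b.c) :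
    IsIt le (step t le) := by
  unfold step
  split_ifs with h1 h2
  · exact ⟨fun r r' x y h h' => ⟨h'.1.mono htr hπ h, h'.2⟩,
      fun r x y z h h' => ⟨h.1, h'.2.trans h.2⟩, fun r x y h => ⟨h.1, subset_rfl⟩,
      fun r x h => ⟨h.1, Finset.empty_subset _⟩,
      fun r => ⟨⟨fun _ h => absurd h (Finset.notMem_empty _),
        fun _ h => absurd h (Finset.notMem_empty _)⟩, subset_rfl⟩⟩
  · exact h1
  · exact ⟨fun _ _ _ _ _ h => h, fun _ _ _ _ h h' => ⟨h.1, h'.2⟩, fun _ _ _ h => ⟨h.1, h.1⟩,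
      fun _ _ h => ⟨h.1, rfl⟩, fun _ => ⟨rfl, rfl⟩⟩

theorem Star.transfer {D D' : Type 1} {le : D → D → Prop} {π : D → Coh} {le' : D' → D' → Prop}
    {π' : D' → Coh} (h : Star le π) (φ : D' → D) (h1 : ∀ a, le' a a → le (φ a) (φ a))
    (h2 : ∀ a b r, le' a a → le' b b → le r (φ a) → le r (φ b) →
      ∃ r', le' r' a ∧ le' r' b ∧ π' r' ≤ π r) : Star le' π' := by
  intro n p s t hp hs ht
  obtain ⟨ξ, η, hne, r, r1, r2, k, hk⟩ := h n (φ ∘ p) s t (fun ξ => h1 _ (hp ξ)) hs ht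
  obtain ⟨r', g1, g2, g3⟩ := h2 _ _ r (hp ξ) (hp η) r1 r2
  exact ⟨ξ, η, hne, r', g1, g2, k, hk.mono g3⟩

theorem star_step (t : Set (C × O × O)) {le : C → C → Prop} (h : Star le C.c)
    (htr : ∀ a b c, le a b → le b c → le a c) (hπ : ∀ a b, le a b → a.c ≤ b.c)
    (hl : ∀ a b, le a b → le a a) (hext : ∀ a, le a a → ∀ c ≤ a.c, ∃ b, le b a ∧ b.c ≤ c) :
    Star (two le (step t le)) fun x => x.1.c := by
  unfold step
  split_ifs with h1 h2
  · obtain ⟨-, hs, ht, -⟩ := h2.choose_spec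
    exact (star_killer (p := fun ξ => (h2.choose.p ξ).1) h htr hπ hl hext hs ht).transfer
      (fun x => (x.1, fs x.2)) (fun a ha => ha)
      fun a b r _ _ g1 g2 => ⟨(r.1, some (Sum.inr r.2)), g1, g2, le_rfl⟩
  · intro n p s t hp hs ht
    by_contra hcon
    exact h2 ⟨⟨n, p, s, t⟩, hp, hs, ht, hcon⟩
  · exact h.transfer Prod.fst (fun a ha => ha.1)
      fun a b r ha hb g1 g2 => ⟨(r, none), ⟨g1, rfl, ha.2.1⟩, ⟨g2, rfl, hb.2.1⟩, le_rfl⟩

theorem aleph_lt_univ (n : ℕ) : Cardinal.aleph.{1} n < Cardinal.univ.{0, 1} := by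
  have := lift_lt_univ (Cardinal.aleph.{0} n)
  simpa using this

instance : Small.{0} W1 := by
  rw [small_iff_lift_mk_lt_univ, mk_W1]
  simpa using aleph_lt_univ 1

instance : Small.{0} W2 := by
  rw [small_iff_lift_mk_lt_univ, mk_ord_toType]
  simpa using aleph_lt_univ 2

theorem mk_le_univ_of_small (X : Type 1) [h : Small.{0} X] : #X ≤ Cardinal.univ.{0, 1} := by
  rw [small_iff_lift_mk_lt_univ] at h
  simpa using h.le

theorem mk_finset_le {X : Type 1} (h : #X ≤ Cardinal.univ.{0, 1}) :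
    #(Finset X) ≤ Cardinal.univ.{0, 1} := by
  rcases finite_or_infinite X with h1 | h1
  · exact mk_le_univ_of_small _
  · rwa [mk_finset_of_infinite]

theorem mk_prod_le {X Z : Type 1} (h : #X ≤ Cardinal.univ.{0, 1}) (h' : #Z ≤ Cardinal.univ.{0, 1}) :
    #(X × Z) ≤ Cardinal.univ.{0, 1} := by
  rw [mk_prod, lift_id, lift_id]
  exact mul_le_of_le aleph0_lt_univ.le h h'

theorem mk_C_le : #C ≤ Cardinal.univ.{0, 1} := by
  classical
  have h1 : #O ≤ Cardinal.univ.{0, 1} := mk_ordinal.le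
  have h2 : #(Option Y) ≤ Cardinal.univ.{0, 1} := by
    rw [mk_option, mk_sum, lift_id, lift_id]
    exact add_le_of_le aleph0_lt_univ.le (add_le_of_le aleph0_lt_univ.le h1
      (mk_finset_le (mk_le_univ_of_small _))) (one_le_aleph0.trans aleph0_lt_univ.le)
  refine le_trans (mk_le_of_injective (f := fun p : C =>
    (p.c.fin.toFinset, p.fin.toFinset.image fun γ => (γ, p.f γ))) ?_)
    (mk_prod_le (mk_finset_le (mk_le_univ_of_small _)) (mk_finset_le (mk_prod_le h1 h2)))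
  have key : ∀ p q : C, (p.fin.toFinset.image fun γ => (γ, p.f γ)) =
      (q.fin.toFinset.image fun γ => (γ, q.f γ)) → ∀ γ, p.f γ ≠ none → p.f γ = q.f γ := by
    intro p q h γ hγ
    have : (γ, p.f γ) ∈ q.fin.toFinset.image fun γ => (γ, q.f γ) :=
      h ▸ Finset.mem_image.2 ⟨γ, p.fin.mem_toFinset.2 hγ, rfl⟩
    obtain ⟨δ, -, h1⟩ := Finset.mem_image.1 this
    obtain ⟨rfl, h2⟩ := Prod.ext_iff.1 h1
    exact h2.symm
  intro p q h
  obtain ⟨e1, e2⟩ := Prod.ext_iff.1 h
  refine C.ext ?_ (funext fun γ => ?_)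
  · have : p.c.s = q.c.s := Set.Finite.toFinset_inj.1 e1
    obtain ⟨⟨_, _, _⟩, _, _⟩ := p
    obtain ⟨⟨_, _, _⟩, _, _⟩ := q
    simpa using this
  · by_cases h1 : p.f γ = none
    · by_cases h2 : q.f γ = none
      · rw [h1, h2]
      · exact (key q p e2.symm γ h2).symm
    · exact key p q e2 γ h1

theorem mk_small_le {X : Type 1} (h : #X ≤ Cardinal.univ.{0, 1}) :
    #{t : Set X // Small.{0} t} ≤ Cardinal.univ.{0, 1} := by
  obtain ⟨e⟩ : Nonempty (X ↪ O) := by rwa [← Cardinal.le_def, mk_ordinal]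
  have h1 := mk_subset_mk_lt_cof (α := O)
    (by rw [mk_ordinal]; exact IsStrongLimit.univ.isStrongPrelimit)
  rw [mk_ordinal, IsInaccessible.univ.isRegular.cof_ord] at h1
  rw [← h1]
  refine mk_le_of_injective (f := fun t => ⟨e '' t.1, ?_⟩) fun t t' h => ?_
  · have := t.2
    have h2 : Small.{0} (e '' t.1) := inferInstance
    rw [small_iff_lift_mk_lt_univ] at h2
    simpa using h2
  · exact Subtype.ext (e.injective.image_injective (congrArg Subtype.val h))

theorem exists_task : ∃ task : O → Set (C × O × O),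
    ∀ t : Set (C × O × O), Small.{0} t → ∀ α, ∃ β, α ≤ β ∧ task β = t := by
  have h1 : #O ≤ Cardinal.univ.{0, 1} := mk_ordinal.le
  obtain ⟨e⟩ : Nonempty ({t : Set (C × O × O) // Small.{0} t} × O ↪ O) := by
    rw [← Cardinal.le_def, mk_ordinal]
    exact mk_prod_le (mk_small_le (mk_prod_le mk_C_le (mk_prod_le h1 h1))) h1
  have : Nonempty ({t : Set (C × O × O) // Small.{0} t} × O) := ⟨(⟨∅, inferInstance⟩, 0)⟩
  refine ⟨fun γ => (Function.invFun e γ).1.1, fun t ht α => ?_⟩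
  obtain ⟨δ, hδ⟩ : ∃ δ, α ≤ e (⟨t, ht⟩, δ) := by
    by_contra hcon
    push Not at hcon
    exact not_small_ordinal.{0, 0} (small_of_injective
      (f := fun δ => (⟨e (⟨t, ht⟩, δ), hcon δ⟩ : Set.Iio α)) fun δ δ' h =>
        congrArg Prod.snd (e.injective (congrArg Subtype.val h)))
  exact ⟨_, hδ, by simp only [Function.leftInverse_invFun e.injective _]⟩

/-- the bookkeeping function -/
noncomputable def task : O → Set (C × O × O) := exists_task.choose

/-- the iterands -/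
noncomputable def R : O → Rel :=
  (wellFounded_lt (α := O)).fix fun α R' => step (task α) fun p q =>
    Sup α p ∧ Sup α q ∧ p.c ≤ q.c ∧ ∀ γ (h : γ < α), R' γ h (p.restr γ) (p.f γ) (q.f γ)

/-- the order of the stage `α` -/
def leA (α : O) (p q : C) : Prop :=
  Sup α p ∧ Sup α q ∧ p.c ≤ q.c ∧ ∀ γ, γ < α → R γ (p.restr γ) (p.f γ) (q.f γ)

theorem R_eq (α : O) : R α = step (task α) (leA α) := WellFounded.fix_eq _ _ _

theorem leA_restr_iff {α : O} {p q : C} : leA α (p.restr α) (q.restr α) ↔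
    p.c ≤ q.c ∧ ∀ γ, γ < α → R γ (p.restr γ) (p.f γ) (q.f γ) := by
  refine ⟨fun h => ⟨h.2.2.1, fun γ hγ => ?_⟩,
    fun h => ⟨sup_restr _ _, sup_restr _ _, h.1, fun γ hγ => ?_⟩⟩
  · have := h.2.2.2 γ hγ
    rwa [restr_restr hγ.le, restr_f_of_lt hγ, restr_f_of_lt hγ] at this
  · rw [restr_restr hγ.le, restr_f_of_lt hγ, restr_f_of_lt hγ]
    exact h.2 γ hγ

theorem isIt (α : O) : IsIt (leA α) (R α) := by
  induction α using WellFoundedLT.induction with
  | ind α ih =>
    rw [R_eq]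
    refine isIt_step _ (fun a b c h h' => ⟨h.1, h'.2.1, h.2.2.1.trans h'.2.2.1, fun γ hγ => ?_⟩)
      fun a b h => h.2.2.1
    exact (ih γ hγ).trans _ _ _ _ (h.2.2.2 γ hγ) ((ih γ hγ).mono _ _ _ _
      (leA_restr_iff.2 ⟨h.2.2.1, fun δ hδ => h.2.2.2 δ (hδ.trans hγ)⟩) (h'.2.2.2 γ hγ))

/-- the order of the whole iteration -/
def le (p q : C) : Prop := p.c ≤ q.c ∧ ∀ γ, R γ (p.restr γ) (p.f γ) (q.f γ)

theorem le.restr {p q : C} (h : le p q) (α : O) : leA α (p.restr α) (q.restr α) :=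
  leA_restr_iff.2 ⟨h.1, fun γ _ => h.2 γ⟩

theorem leA_iff {α : O} {p q : C} : leA α p q ↔ Sup α p ∧ Sup α q ∧ le p q := by
  refine ⟨fun h => ⟨h.1, h.2.1, h.2.2.1, fun γ => ?_⟩,
    fun h => ⟨h.1, h.2.1, h.2.2.1, fun γ _ => h.2.2.2 γ⟩⟩
  rcases lt_or_ge γ α with h1 | h1
  · exact h.2.2.2 γ h1
  · rw [h.1.none h1, h.2.1.none h1]
    exact (isIt γ).nn _

theorem le.trans {p q r : C} (h : le p q) (h' : le q r) : le p r :=
  ⟨h.1.trans h'.1, fun γ => (isIt γ).trans _ _ _ _ (h.2 γ)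
    ((isIt γ).mono _ _ _ _ (h.restr γ) (h'.2 γ))⟩

theorem le.left {p q : C} (h : le p q) : le p p := ⟨le_rfl, fun γ => (isIt γ).left _ _ _ (h.2 γ)⟩

theorem le.restr' {p q : C} (h : le p q) (α : O) : le (p.restr α) (q.restr α) :=
  (leA_iff.1 (h.restr α)).2.2

theorem le.le_restr {p : C} (h : le p p) (α : O) : le p (p.restr α) := by
  refine ⟨le_rfl, fun γ => ?_⟩
  rcases lt_or_ge γ α with h1 | h1
  · rw [restr_f_of_lt h1]; exact h.2 γ
  · rw [restr_f_of_ge h1]; exact (isIt γ).top _ _ (h.2 γ)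

theorem le.restr_le {p q : C} {α : O} (h : le p q) (hq : Sup α q) : le (p.restr α) q := by
  have := h.restr' α
  rwa [hq.restr_eq] at this

theorem le_of_forall {ι : Type} {s : C} {p : ι → C} (hc : ∀ i, s.c ≤ (p i).c)
    (h : ∀ γ, (∀ i, leA γ (s.restr γ) ((p i).restr γ)) → ∀ i, R γ (s.restr γ) (s.f γ) ((p i).f γ)) :
    ∀ i, le s (p i) := by
  have key : ∀ γ i, R γ (s.restr γ) (s.f γ) ((p i).f γ) := by
    intro γ
    induction γ using WellFoundedLT.induction with
    | ind γ ih => exact h γ fun i => leA_restr_iff.2 ⟨hc i, fun δ hδ => ih δ hδ i⟩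
  exact fun i => ⟨hc i, fun γ => key γ i⟩

theorem le_ext {p : C} (hp : le p p) {c : Coh} (hc : c ≤ p.c) : le ⟨c, p.f, p.fin⟩ p :=
  le_of_forall (ι := Unit) (p := fun _ => p) (fun _ => hc)
    (fun γ h _ => (isIt γ).mono _ _ _ _ (h ()) (hp.2 γ)) ()

theorem amalg {p q r : C} {β : O} (hp : le p p) (hq : le q q) (hr : Sup β r)
    (h1 : le r (p.restr β)) (h2 : le r (q.restr β))
    (hd : ∀ γ, β ≤ γ → p.f γ = none ∨ q.f γ = none) :
    ∃ s, le s p ∧ le s q ∧ s.restr β = r ∧ ∀ γ, β ≤ γ → s.f γ = (p.f γ).or (q.f γ) := by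
  classical
  let s : C := ⟨r.c, fun γ => if γ < β then r.f γ else (p.f γ).or (q.f γ),
    ((r.fin.union p.fin).union q.fin).subset fun γ h => by
      by_contra hcon
      simp only [Set.mem_union, Set.mem_ofPred_eq, not_or, not_not] at hcon
      simp [hcon] at h⟩
  have e1 : s.restr β = r := C.ext rfl (funext fun γ => by
    rcases lt_or_ge γ β with h | h
    · rw [restr_f_of_lt h]; exact if_pos h
    · rw [restr_f_of_ge h, hr.none h])
  have e2 : ∀ γ, β ≤ γ → s.f γ = (p.f γ).or (q.f γ) := fun γ h => if_neg (not_lt.2 h)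
  have key := le_of_forall (ι := Bool) (s := s) (p := fun b => if b then p else q)
    (by rintro (_ | _); exacts [h2.1, h1.1]) (by
      intro γ h
      rcases lt_or_ge γ β with hγ | hγ
      · have e3 : s.restr γ = r.restr γ := by rw [← e1, restr_restr hγ.le]
        have e4 : s.f γ = r.f γ := if_pos hγ
        rw [e3, e4]
        rintro (_ | _)
        · exact restr_f_of_lt (p := q) hγ ▸ h2.2 γ
        · exact restr_f_of_lt (p := p) hγ ▸ h1.2 γ
      · have g1 := (isIt γ).mono _ _ _ _ (h true) (hp.2 γ)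
        have g2 := (isIt γ).mono _ _ _ _ (h false) (hq.2 γ)
        rw [e2 γ hγ]
        rcases hd γ hγ with h3 | h3
        · rintro (_ | _)
          · simpa [h3] using g2
          · simpa [h3] using (isIt γ).top _ _ g2
        · rintro (_ | _)
          · simpa [h3] using (isIt γ).top _ _ g1
          · simpa [h3] using g1)
  exact ⟨s, key true, key false, e1, e2⟩

theorem amalg1 {p r : C} {β : O} (hp : le p p) (hr : Sup β r) (h1 : le r (p.restr β)) :
    ∃ s, le s p ∧ le s r ∧ s.restr β = r := by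
  obtain ⟨s, g1, g2, g3, -⟩ := amalg hp h1.left hr h1 (by rw [hr.restr_eq]; exact h1.left)
    fun γ h => Or.inr (hr.none h)
  exact ⟨s, g1, g2, g3⟩

open Classical in
/-- changing one coordinate -/
noncomputable def C.upd (p : C) (α : O) (x : Option Y) : C :=
  ⟨p.c, Function.update p.f α x, (p.fin.insert α).subset fun γ h => by
    by_cases hγ : γ = α
    · exact Or.inl hγ
    · exact Or.inr (by simpa [hγ] using h)⟩

@[simp] theorem upd_self (p : C) (α : O) (x : Option Y) : (p.upd α x).f α = x := by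
  simp [C.upd]

theorem upd_of_ne (p : C) {α γ : O} (x : Option Y) (h : γ ≠ α) : (p.upd α x).f γ = p.f γ := by
  simp [C.upd, h]

theorem upd_restr (p : C) {α γ : O} (x : Option Y) (h : γ ≤ α) :
    (p.upd α x).restr γ = p.restr γ := by
  refine C.ext rfl (funext fun δ => ?_)
  rcases lt_or_ge δ γ with h1 | h1
  · rw [restr_f_of_lt h1, restr_f_of_lt h1, upd_of_ne _ _ (h1.trans_le h).ne]
  · rw [restr_f_of_ge h1, restr_f_of_ge h1]

theorem upd_le {p : C} (hp : le p p) {α : O} {x : Option Y} (h : R α (p.restr α) x (p.f α)) :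
    le (p.upd α x) p := by
  refine le_of_forall (ι := Unit) (p := fun _ => p) (fun _ => le_rfl) (fun γ h1 _ => ?_) ()
  by_cases hγ : γ = α
  · subst hγ
    rwa [upd_self, upd_restr _ _ le_rfl]
  · rw [upd_of_ne _ _ hγ]
    exact (isIt γ).mono _ _ _ _ (h1 ()) (hp.2 γ)

theorem leA_succ_of_two {α : O} {r p : C} {x : Option Y} (hp : Sup (Order.succ α) p)
    (h : two (leA α) (R α) (r, x) (p.restr α, p.f α)) : leA (Order.succ α) (r.upd α x) p := by
  refine ⟨fun γ hγ => ?_, hp, h.1.2.2.1, fun γ hγ => ?_⟩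
  · by_cases e : γ = α
    · exact e ▸ Order.lt_succ α
    · rw [upd_of_ne _ _ e] at hγ
      exact (h.1.1 γ hγ).trans (Order.lt_succ α)
  · rcases (Order.lt_succ_iff.1 hγ).lt_or_eq with e | rfl
    · rw [upd_restr _ _ e.le, upd_of_ne _ _ e.ne, ← restr_f_of_lt (p := p) e]
      exact h.1.2.2.2 γ e
    · rw [upd_restr _ _ le_rfl, upd_self, h.1.1.restr_eq]
      exact h.2

theorem star_leA (α : O) : Star (leA α) C.c := by
  classical
  induction α using Ordinal.limitRecOn with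
  | zero =>
    refine star_cohen.transfer C.c (fun a _ => le_rfl) fun a b r ha hb g1 g2 =>
      ⟨⟨r, fun _ => none, by simp⟩, ?_, ?_, le_rfl⟩
    · exact ⟨fun _ h => absurd rfl h, ha.1, g1, fun γ h => absurd h (by simp)⟩
    · exact ⟨fun _ h => absurd rfl h, hb.1, g2, fun γ h => absurd h (by simp)⟩
  | add_one α ih =>
    have h := star_step (task α) ih
      (fun a b c h h' => leA_iff.2 ⟨h.1, h'.2.1, (leA_iff.1 h).2.2.trans (leA_iff.1 h').2.2⟩)
      (fun a b h => h.2.2.1) (fun a b h => leA_iff.2 ⟨h.1, h.1, (leA_iff.1 h).2.2.left⟩)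
      fun a ha c hc => ⟨⟨c, a.f, a.fin⟩, leA_iff.2 ⟨ha.1, ha.1, le_ext (leA_iff.1 ha).2.2 hc⟩, le_rfl⟩
    rw [← R_eq] at h
    exact h.transfer (fun p => (p.restr α, p.f α))
      (fun a ha => ⟨(leA_iff.1 ha).2.2.restr α, (leA_iff.1 ha).2.2.2 α⟩)
      fun a b r ha hb g1 g2 => ⟨r.1.upd α r.2, leA_succ_of_two ha.1 g1, leA_succ_of_two hb.1 g2,
        le_rfl⟩
  | limit α hα ih =>
    intro n p s t hp hs ht
    obtain ⟨D, I, -, hI, hD, hD'⟩ := exists_delta (fun ξ => (p ξ).fin.toFinset)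
      Set.not_countable_univ
    obtain ⟨ξ0, hξ0⟩ := nonempty_of_not_countable hI
    obtain ⟨β, hβ, hβ'⟩ : ∃ β < α, ∀ γ ∈ D, γ < β := by
      rcases D.eq_empty_or_nonempty with rfl | h
      · exact ⟨0, hα.pos, by simp⟩
      · refine ⟨Order.succ (D.max' h), hα.succ_lt ((hp ξ0).1 _ ?_),
          fun γ hγ => Order.lt_succ_iff.2 (D.le_max' γ hγ)⟩
        exact (p ξ0).fin.mem_toFinset.1 (hD ξ0 hξ0 (D.max'_mem h))
    obtain ⟨ξ, hξ, η, hη, hne, r, r1, r2, k, hk⟩ := (ih β hβ).general hI (fun ξ => (p ξ).restr β)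
      s t (fun ξ _ => (leA_iff.1 (hp ξ)).2.2.restr β) (hs.mono (Set.subset_univ _))
      (ht.mono (Set.subset_univ _))
    obtain ⟨u, u1, u2, u3, u4⟩ := amalg (leA_iff.1 (hp ξ)).2.2 (leA_iff.1 (hp η)).2.2 r1.1
      (leA_iff.1 r1).2.2 (leA_iff.1 r2).2.2 fun γ hγ => by
        by_contra hcon
        push Not at hcon
        exact absurd (hβ' γ (hD' ξ hξ η hη hne γ ((p ξ).fin.mem_toFinset.2 hcon.1)
          ((p η).fin.mem_toFinset.2 hcon.2))) (not_lt.2 hγ)
    have u5 : Sup α u := fun γ hγ => by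
      rcases lt_or_ge γ β with h | h
      · exact h.trans hβ
      · rw [u4 γ h] at hγ
        by_cases h1 : (p ξ).f γ = none
        · exact (hp η).1 γ (by simpa [h1] using hγ)
        · exact (hp ξ).1 γ h1
    refine ⟨ξ, η, hne, u, leA_iff.2 ⟨u5, (hp ξ).1, u1⟩, leA_iff.2 ⟨u5, (hp η).1, u2⟩, k, ?_⟩
    rwa [← u3] at hk

theorem star_le : Star le C.c := by
  intro n p s t hp hs ht
  obtain ⟨α, hα⟩ := exists_sup_small p
  obtain ⟨ξ, η, hne, r, r1, r2, h⟩ := star_leA α n p s t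
    (fun ξ => leA_iff.2 ⟨hα ξ, hα ξ, hp ξ⟩) hs ht
  exact ⟨ξ, η, hne, r, (leA_iff.1 r1).2.2, (leA_iff.1 r2).2.2, h⟩

/-- the forcing -/
def PP : Type 1 := {p : C // le p p}

instance : Preorder PP where
  le p q := le p.1 q.1
  le_refl p := p.2
  le_trans _ _ _ h h' := le.trans h h'

instance : OrderTop PP where
  top := ⟨⟨⊤, fun _ => none, by simp⟩, le_rfl, fun γ => (isIt γ).nn _⟩
  le_top p := ⟨le_top, fun γ => (isIt γ).top _ _ (p.2.2 γ)⟩

theorem PP.le_def {p q : PP} : p ≤ q ↔ le p.1 q.1 := Iff.rfl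

theorem PP.ccc {ι : Type 1} {I : Set ι} (hI : ¬ I.Countable) (p : ι → PP) :
    ∃ i ∈ I, ∃ j ∈ I, i ≠ j ∧ ∃ r, r ≤ p i ∧ r ≤ p j := by
  obtain ⟨i, hi, j, hj, hne, r, r1, r2⟩ := star_le.ccc hI (fun i => (p i).1) fun i _ => (p i).2
  exact ⟨i, hi, j, hj, hne, ⟨r, r1.left⟩, r1, r2⟩

theorem PP.exists_ext (p : PP) {c : Coh} (hc : c ≤ p.1.c) : ∃ q ≤ p, q.1.c = c :=
  ⟨⟨_, (le_ext p.2 hc).left⟩, le_ext p.2 hc, rfl⟩

end Pool.Agent.P.MP_93aff1_lc
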