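import Pool.Agent.Lib.PosetForcing.Card
import Pool.Agent.P.MP_93aff1_lc.Iter
import Pool.Agent.P.MP_93aff1_lc.Defs

set_option autoImplicit false

open Pool.Agent.Lib.PosetForcing Cardinal

namespace Pool.Agent.P.MP_93aff1_lc

section inst
universe u
variable {P : Type u} [Preorder P]

instance clopen_agreeTo (a b c : Name P) :
    Clopen fun U : Gen P => AgreeTo Mod.mem (a.val U) (b.val U) (c.val U) := by
  unfold AgreeTo; infer_instance

instance clopen_isOpenSet (a b c : Name P) :
    Clopen fun U : Gen P => IsOpenSet Mod.mem (a.val U) (b.val U) (c.val U) := by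
  unfold IsOpenSet; infer_instance

instance clopen_aleph1Dense (a b c d : Name P) :
    Clopen fun U : Gen P => Aleph1Dense Mod.mem (a.val U) (b.val U) (c.val U) (d.val U) := by
  unfold Aleph1Dense; infer_instance

instance clopen_isLipschitz (a b c : Name P) :
    Clopen fun U : Gen P => IsLipschitz Mod.mem (a.val U) (b.val U) (c.val U) := by
  unfold IsLipschitz; infer_instance

instance clopen_isPoset (a b : Name P) :
    Clopen fun U : Gen P => IsPoset Mod.mem (a.val U) (b.val U) := by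
  unfold IsPoset; infer_instance

instance clopen_compat (a b c d : Name P) :
    Clopen fun U : Gen P => Compat Mod.mem (a.val U) (b.val U) (c.val U) (d.val U) := by
  unfold Compat; infer_instance

instance clopen_isCCC (a b c : Name P) :
    Clopen fun U : Gen P => IsCCC Mod.mem (a.val U) (b.val U) (c.val U) := by
  unfold IsCCC; infer_instance

instance clopen_isDense (a b c : Name P) :
    Clopen fun U : Gen P => IsDense Mod.mem (a.val U) (b.val U) (c.val U) := by
  unfold IsDense; infer_instance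

instance clopen_isFilter (a b c : Name P) :
    Clopen fun U : Gen P => IsFilter Mod.mem (a.val U) (b.val U) (c.val U) := by
  unfold IsFilter; infer_instance

instance clopen_ma (a b : Name P) : Clopen fun U : Gen P => MA Mod.mem (a.val U) (b.val U) := by
  unfold MA; infer_instance

end inst

theorem ccc_PP : CCC PP := fun _ _ hI p => PP.ccc hI p

/-- `ω` -/
noncomputable def wN : Name PP := omegaName
/-- `ω₁` -/
noncomputable def w1N : Name PP := typeName W1
/-- Cantor space -/
noncomputable def cN : Name PP := powName omegaName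
/-- numerals -/
noncomputable def nN (n : ℕ) : Name PP := natName n

theorem mem_cN {U : Gen PP} {x : Mod U} : Mod.mem x (cN.val U) ↔ IsSub Mod.mem x (wN.val U) :=
  mem_powName _ U x

/-- the generic reals -/
noncomputable def rn (z : Bool × J) : Name PP :=
  .mk {x : PP × ULift.{1} ℕ // bit x.1.1.c z x.2.down true} (fun x => nN x.1.2.down) fun x => x.1.1

theorem rn_mem (z : Bool × J) (U : Gen PP) : Mod.mem ((rn z).val U) (cN.val U) :=
  mem_cN.2 (forall_mem (b := rn z) (Φ := fun U y => Mod.mem y (wN.val U))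
    (fun _ q _ => ⟨q, le_rfl, Forces.of_forall (natName_mem_omega _) q⟩) U)

theorem forces_bit {q : PP} {z : Bool × J} {m : ℕ} {b : Bool} (h : bit q.1.c z m b) :
    Forces q fun U => Mod.mem ((nN m).val U) ((rn z).val U) ↔ b = true := by
  cases b
  · refine (forces_not_iff.2 fun r hr h1 => ?_ :
      Forces q fun U => ¬ Mod.mem ((nN m).val U) ((rn z).val U)).imp fun U h => by simpa using h
    obtain ⟨s, hs, ⟨⟨t, ⟨m'⟩⟩, ht⟩, h2, h3⟩ := h1.exists_el
    obtain rfl : m = m' := Forces.natName_inj h3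
    have := (h.mono (hs.trans hr).1).unique (ht.mono h2.1)
    simp at this
  · exact (forces_el_mem (b := rn z) ⟨(q, ⟨m⟩), h⟩ le_rfl).imp fun U h => ⟨fun _ => rfl, fun _ => h⟩

theorem not_forces_rn_eq {z z' : Bool × J} (hne : z ≠ z') (q : PP) :
    ¬ Forces q fun U => (rn z).val U = (rn z').val U := by
  classical
  intro h
  obtain ⟨N, hN⟩ := (q.1.c.fin.image fun x => x.1.2).bddAbove
  let m := max (N + 1) (max z.2.1.length z'.2.1.length)
  let top : Coh := ⟨(fun y => ((y, m), decide (y = z))) '' {z, z'},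
    ((Set.finite_singleton z').insert z).image _, by
      rintro x b b' ⟨y, -, h⟩ ⟨y', -, h'⟩
      have e1 : y = y' := (congrArg (fun z => z.1.1) h).trans (congrArg (fun z => z.1.1) h').symm
      subst e1
      exact (congrArg Prod.snd h).symm.trans (congrArg Prod.snd h')⟩
  have hcomp : FCond.Compat q.1.c top := by
    rintro x b b' g1 ⟨y, -, h⟩
    have e1 : x.2 = m := (congrArg (fun z => z.1.2) h).symm
    have e2 : x.2 ≤ N := hN ⟨_, g1, rfl⟩
    omega
  obtain ⟨r, hr, e⟩ := q.exists_ext (c := q.1.c.union top hcomp) fun _ h => Or.inl h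
  have b1 : bit r.1.c z m true := by
    rw [bit, if_neg (by omega), e]
    exact Or.inr ⟨z, Or.inl rfl, by simp⟩
  have b2 : bit r.1.c z' m false := by
    rw [bit, if_neg (by omega), e]
    exact Or.inr ⟨z', Or.inr rfl, by simp [hne.symm]⟩
  refine Forces.not_false (p := r) fun U hU => ?_
  have := (forces_bit b2 U hU).1 (h.mono hr U hU ▸ (forces_bit b1 U hU).2 rfl)
  simp at this

theorem agreeTo_nN {U : Gen PP} {x y : Mod U} {k : ℕ} : AgreeTo Mod.mem x y ((nN k).val U) ↔
    ∀ m < k, (Mod.mem ((nN m).val U) x ↔ Mod.mem ((nN m).val U) y) :=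
  ⟨fun h m hm => h _ (natName_mem hm U), fun h m hm => by
    obtain ⟨i, hi, rfl⟩ := (mem_natName U m).1 hm
    exact h i hi⟩

theorem exists_emb12 : Nonempty (W1 ↪ W2) := by
  rw [← Cardinal.le_def, mk_ord_toType, mk_ord_toType]
  exact aleph_le_aleph.2 one_le_two

/-- an injection of `ω₁` into `ω₂` -/
noncomputable def emb : W1 ↪ W2 := exists_emb12.some

/-- the elements of the two dense sets -/
noncomputable def an (β : Bool) (j : List Bool × W1) : Name PP := rn (β, (j.1, emb j.2))

theorem an_ne (β : Bool) {i j : List Bool × W1} (h : i ≠ j) (q : PP) :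
    ¬ Forces q fun U => (an β i).val U = (an β j).val U :=
  not_forces_rn_eq (fun e => h (by
    simp only [Prod.mk.injEq, true_and] at e
    exact Prod.ext e.1 (emb.injective e.2))) q

theorem isOmega1_w1N (U : Gen PP) : IsOmega1 Mod.mem (w1N.val U) (wN.val U) :=
  ccc_PP.isOmega1 (fun x => by
    rw [← le_aleph0_iff_set_countable, ← Order.lt_succ_iff, succ_aleph0]
    simpa using mk_Iio_lt x) U

theorem aleph1Dense (β : Bool) (U : Gen PP) :
    Aleph1Dense Mod.mem ((fam (an β)).val U) (cN.val U) (wN.val U) (w1N.val U) := by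
  refine ⟨forall_mem_fam (Φ := fun U x => Mod.mem x (cN.val U)) (fun j U => rn_mem _ U) U, ?_⟩
  refine of_forces_all (Φ := fun U => ∀ V, IsOpenSet Mod.mem V (cN.val U) (wN.val U) →
    (∃ x, Mod.mem x V) → ∀ S, (∀ x, Mod.mem x S ↔ Mod.mem x ((fam (an β)).val U) ∧ Mod.mem x V) →
    LeCard Mod.mem (w1N.val U) S ∧ LeCard Mod.mem S (w1N.val U)) (fun p => ⟨p, le_rfl, ?_⟩) U
  refine forces_forall fun V => forces_imp fun q1 _ h1 => ⟨q1, le_rfl, forces_imp
    fun q2 hq2 h2 => ⟨q2, le_rfl, forces_forall fun S => forces_imp fun q3 hq3 h3 => ?_⟩⟩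
  replace h1 := h1.mono (hq3.trans hq2)
  obtain ⟨x, hx⟩ := (h2.mono hq3).exists_name
  obtain ⟨k, hk⟩ := Forces.exists_name (Φ := fun U k => Mod.mem k (wN.val U) ∧ ∀ y,
    Mod.mem y (cN.val U) → AgreeTo Mod.mem (x.val U) y k → Mod.mem y (V.val U))
    ((h1.and hx).imp fun U h => h.1.2 _ h.2)
  obtain ⟨q4, hq4, ⟨n⟩, hn⟩ := (hk.imp fun _ h => h.1).exists_fam
  obtain ⟨q5, hq5, b, hb⟩ := exists_decide_lt n (fun m U => Mod.mem ((nN m).val U) (x.val U)) q4
  obtain ⟨enc⟩ : Nonempty (List Bool × W1 ↪ W1) := by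
    rw [← Cardinal.le_def]
    simp [aleph0_lt_aleph_one.le]
  refine ⟨q5, hq5.trans hq4, Forces.and ?_ ?_⟩
  · refine forces_leCard (fun ξ : W1 => ordName ξ)
      (fun ξ => an β (List.ofFn fun i : Fin n => b i, ξ)) (fun z q _ hz => hz.exists_fam)
      (fun ξ U hU => ?_) fun ξ η hne q _ => an_ne β (fun e => hne (congrArg Prod.snd e)) q
    refine (h3.mono (hq5.trans hq4) U hU _).2 ⟨mem_fam (an β) _ U,
      (hk.mono (hq5.trans hq4) U hU).2 _ (rn_mem _ U) ?_⟩
    rw [hn.mono hq5 U hU]
    refine agreeTo_nN.2 fun m hm => (hb m hm U hU).trans (forces_bit ?_ U hU).symm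
    rw [bit, if_pos (by simpa using hm)]
    simp [List.getD_eq_getElem?_getD, hm]
  · exact forces_leCard (an β) (fun j => ordName (enc j))
      (fun z q hq hz => Forces.exists_fam ((hz.and (h3.mono (hq.trans (hq5.trans hq4)))).imp
        fun U h => ((h.2 _).1 h.1).1))
      (fun j => Forces.of_forall (ordName_mem_typeName _) _)
      fun i j hne q _ h => hne (enc.injective h.ordName_inj)

theorem not_ch (U : Gen PP) : ¬ LeCard Mod.mem (cN.val U) (w1N.val U) := by
  rintro ⟨j, hj⟩
  obtain ⟨j, rfl⟩ := j.exists_name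
  obtain ⟨p, hp⟩ := Ultrafilter.nonempty_of_mem (truth (Φ := fun U : Gen PP =>
    IsInj Mod.mem (j.val U) (cN.val U) (w1N.val U)) hj)
  refine ccc_PP.not_forces_inj (ι := W2) (I := Set.univ) (fun f => ?_)
    (fun x => rn (false, ([], x))) (fun x : W1 => ordName x) (fun _ => p)
    (fun x _ => Forces.imp hp fun U h => ⟨h, rn_mem _ U⟩)
    fun x _ y _ hne r _ _ => not_forces_rn_eq (by simpa using hne) r
  by_contra hcon
  push Not at hcon
  choose g hg using fun y => Set.countable_iff_exists_injOn.1 (hcon y)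
  have h1 : Function.Injective fun x => (f x, ULift.up.{1} (g (f x) x)) := fun x y h => by
    simp only [Prod.mk.injEq, ULift.up.injEq] at h
    exact hg (f x) ⟨trivial, rfl⟩ ⟨trivial, h.1.symm⟩ (h.2.trans (by rw [h.1]))
  have h2 := mk_le_of_injective h1
  simp [aleph0_lt_aleph_one.le] at h2

theorem not_baLip (U : Gen PP) : ¬ BALip Mod.mem (wN.val U) (w1N.val U) (cN.val U) := by
  intro h
  obtain ⟨f, hf⟩ := h _ _ (aleph1Dense false U) (aleph1Dense true U)
  obtain ⟨f, rfl⟩ := f.exists_name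
  obtain ⟨p, hp⟩ := Ultrafilter.nonempty_of_mem (truth (Φ := (fun U : Gen PP =>
    IsLipschitz Mod.mem (f.val U) (cN.val U) (wN.val U) ∧
    (∀ x y, Mod.mem x ((fam (an false)).val U) → App Mod.mem (f.val U) x y →
      Mod.mem y ((fam (an true)).val U)) ∧
    ∀ x x' y, Mod.mem x ((fam (an false)).val U) → Mod.mem x' ((fam (an false)).val U) →
      App Mod.mem (f.val U) x y → App Mod.mem (f.val U) x' y → x = x' :)) hf)
  have h1 : ∀ ξ : W1, ∃ q ≤ p, ∃ j, Forces q fun U =>
      App Mod.mem (f.val U) ((an false ([], ξ)).val U) ((an true j).val U) := by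
    intro ξ
    obtain ⟨y, hy⟩ := Forces.exists_name
      (Φ := fun U y => App Mod.mem (f.val U) ((an false ([], ξ)).val U) y)
      (Forces.imp hp fun U h => h.1.1.2.1 _ (rn_mem _ U))
    obtain ⟨q, hq, j, hj⟩ := Forces.exists_fam ((Forces.and hp hy).imp
      fun U h => h.1.2.1 _ _ (mem_fam (an false) _ U) h.2)
    exact ⟨q, hq, j, ((hy.mono hq).and hj).imp fun U h => h.2 ▸ h.1⟩
  choose q hq j hj using h1
  obtain ⟨ξ, η, -, r, r1, r2, k, hk⟩ := star_le 1 (fun ξ => (q ξ).1) (fun ξ _ => ([], emb ξ))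
    (fun ξ _ => ((j ξ).1, emb (j ξ).2)) (fun ξ => (q ξ).2)
    (fun x => Set.Subsingleton.countable fun ξ ⟨_, _, h⟩ η ⟨_, _, h'⟩ =>
      emb.injective (congrArg Prod.snd (h.trans h'.symm)))
    (fun x => by
      by_contra hx
      obtain ⟨ξ, ⟨-, _, hξ⟩, η, ⟨-, _, hη⟩, hne, r, r1, r2⟩ := PP.ccc hx q
      have e : j ξ = j η := by
        have := hξ.trans hη.symm
        simp only [Prod.mk.injEq] at this
        exact Prod.ext this.1 (emb.injective this.2)
      refine an_ne false (i := ([], ξ)) (j := ([], η)) (by simpa using hne) r fun U hU => ?_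
      exact (Forces.mono hp (r1.trans (hq ξ)) U hU).2.2 _ _ _ (mem_fam (an false) _ U)
        (mem_fam (an false) _ U) ((hj ξ).mono r1 U hU) (e ▸ (hj η).mono r2 U hU))
  let r' : PP := ⟨r, r1.left⟩
  refine Forces.not_false (p := r') fun U hU => ?_
  have g1 := (Forces.mono hp (le_trans (show r' ≤ q ξ from r1) (hq ξ)) U hU).1.2 _ _ _ _ _
    (natName_mem_omega k U) ((hj ξ).mono (show r' ≤ q ξ from r1) U hU)
    ((hj η).mono (show r' ≤ q η from r2) U hU) (agreeTo_nN.2 fun m hm => by
      obtain ⟨b, b1, b2⟩ := hk.1 0 m hm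
      exact (forces_bit (q := r') b1 U hU).trans (forces_bit (q := r') b2 U hU).symm)
  obtain ⟨m, hm, b, b1, b2⟩ := hk.2 0
  have g2 := ((forces_bit (q := r') b1 U hU).symm.trans (agreeTo_nN.1 g1 m hm)).trans
    (forces_bit (q := r') b2 U hU)
  simp at g2

end Pool.Agent.P.MP_93aff1_lc
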