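import Pool.Agent.Lib.PosetForcing.Delta

set_option autoImplicit false

open Pool.Agent.Lib.PosetForcing Cardinal

namespace Pool.Agent.P.MP_93aff1_lc

/-- a well-ordered type of order type `ω₁` -/
abbrev W1 : Type 1 := (Cardinal.aleph.{1} 1).ord.ToType

/-- a type of size `ℵ₂` -/
abbrev W2 : Type 1 := (Cardinal.aleph.{1} 2).ord.ToType

/-- indices of generic reals with a prescribed initial segment -/
abbrev J : Type 1 := List Bool × W2

/-- Cohen conditions -/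
abbrev Coh : Type 1 := FCond ((Bool × J) × ℕ)

theorem mk_W1 : #W1 = ℵ₁ := by simp

instance : Uncountable W1 := by
  rw [← aleph0_lt_mk_iff, mk_W1]; exact aleph0_lt_aleph_one

theorem exists_W1_emb {ι : Type 1} {I : Set ι} (hI : ¬ I.Countable) :
    ∃ e : W1 → ι, Function.Injective e ∧ ∀ x, e x ∈ I := by
  rw [← le_aleph0_iff_set_countable, not_le, ← Order.succ_le_iff, succ_aleph0, ← mk_W1] at hI
  obtain ⟨e⟩ := (Cardinal.le_def _ _).1 hI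
  exact ⟨fun x => (e x).1, Subtype.val_injective.comp e.injective, fun x => (e x).2⟩

/-- `c` decides the `m`-th bit of the real `z` to be `b` -/
def bit (c : Coh) (z : Bool × J) (m : ℕ) (b : Bool) : Prop :=
  if m < z.2.1.length then z.2.1.getD m false = b else ((z, m), b) ∈ c.s

theorem bit.mono {c c' : Coh} {z : Bool × J} {m : ℕ} {b : Bool} (h : bit c z m b) (hc : c' ≤ c) :
    bit c' z m b := by
  unfold bit at h ⊢
  split_ifs at h ⊢
  exacts [h, hc h]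

theorem bit.unique {c : Coh} {z : Bool × J} {m : ℕ} {b b' : Bool} (h : bit c z m b)
    (h' : bit c z m b') : b = b' := by
  unfold bit at h h'
  split_ifs at h h'
  exacts [h.symm.trans h', c.fn _ _ _ h h']

theorem exists_bit (c : Coh) (z : Bool × J) (m : ℕ) : ∃ c' ≤ c, ∃ b, bit c' z m b := by
  unfold bit
  split_ifs
  · exact ⟨c, le_rfl, _, rfl⟩
  · exact c.exists_decide _

theorem exists_bits {κ : Type*} [Finite κ] (c : Coh) (z : κ → Bool × J) (m : κ → ℕ) :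
    ∃ c' ≤ c, ∃ b : κ → Bool, ∀ k, bit c' (z k) (m k) (b k) := by
  classical
  have : Fintype κ := Fintype.ofFinite κ
  have key : ∀ T : Finset κ, ∃ c' ≤ c, ∀ k ∈ T, ∃ b, bit c' (z k) (m k) b := by
    intro T
    induction T using Finset.induction_on with
    | empty => exact ⟨c, le_rfl, by simp⟩
    | insert a T _ ih =>
      obtain ⟨c1, h1, h2⟩ := ih
      obtain ⟨c2, h3, h4⟩ := exists_bit c1 (z a) (m a)
      refine ⟨c2, h3.trans h1, fun k hk => ?_⟩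
      rcases Finset.mem_insert.1 hk with rfl | hk
      · exact h4
      · exact (h2 k hk).imp fun b hb => hb.mono h3
  obtain ⟨c', h1, h2⟩ := key Finset.univ
  choose b hb using h2
  exact ⟨c', h1, fun k => b k (Finset.mem_univ k), fun k => hb k _⟩

/-- at level `k` the first tuples agree and the second tuples are separated -/
def GoodAt {κ : Type} (c : Coh) (k : ℕ) (s s' t t' : κ → J) : Prop :=
  (∀ i, ∀ m < k, ∃ b, bit c (false, s i) m b ∧ bit c (false, s' i) m b) ∧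
  (∀ j, ∃ m < k, ∃ b, bit c (true, t j) m b ∧ bit c (true, t' j) m (!b))

theorem GoodAt.mono {κ : Type} {c c' : Coh} {k : ℕ} {s s' t t' : κ → J} (h : GoodAt c k s s' t t')
    (hc : c' ≤ c) : GoodAt c' k s s' t t' :=
  ⟨fun i m hm => (h.1 i m hm).imp fun _ h => ⟨h.1.mono hc, h.2.mono hc⟩,
    fun j => (h.2 j).imp fun _ h => ⟨h.1, h.2.imp fun _ h => ⟨h.1.mono hc, h.2.mono hc⟩⟩⟩

theorem GoodAt.symm {κ : Type} {c : Coh} {k : ℕ} {s s' t t' : κ → J} (h : GoodAt c k s s' t t') :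
    GoodAt c k s' s t' t :=
  ⟨fun i m hm => (h.1 i m hm).imp fun _ h => h.symm,
    fun j => (h.2 j).imp fun _ ⟨h1, b, h2, h3⟩ => ⟨h1, !b, h3, by simpa using h2⟩⟩

theorem GoodAt.comp {κ κ' : Type} {c : Coh} {k : ℕ} {s s' t t' : κ → J} (h : GoodAt c k s s' t t')
    (e : κ' → κ) : GoodAt c k (s ∘ e) (s' ∘ e) (t ∘ e) (t' ∘ e) :=
  ⟨fun i => h.1 (e i), fun j => h.2 (e j)⟩

/-- point-countable families of tuples -/
def PC {ι κ : Type*} (I : Set ι) (s : ι → κ → J) : Prop :=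
  ∀ x, {i | i ∈ I ∧ ∃ k, s i k = x}.Countable

theorem PC.mono {ι κ : Type*} {I I' : Set ι} {s : ι → κ → J} (h : PC I s) (hI : I' ⊆ I) :
    PC I' s := fun x => (h x).mono fun _ hi => And.intro (hI hi.1) hi.2

section star
variable {D : Type 1} (le : D → D → Prop) (π : D → Coh)

/-- the property preserved along the iteration -/
def Star : Prop := ∀ (n : ℕ) (p : W1 → D) (s t : W1 → Fin n → J), (∀ ξ, le (p ξ) (p ξ)) →
  PC Set.univ s → PC Set.univ t →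
  ∃ ξ η, ξ ≠ η ∧ ∃ r, le r (p ξ) ∧ le r (p η) ∧ ∃ k, GoodAt (π r) k (s ξ) (s η) (t ξ) (t η)

variable {le π}

theorem Star.general (h : Star le π) {ι : Type 1} {κ : Type} [Finite κ] {I : Set ι}
    (hI : ¬ I.Countable) (p : ι → D) (s t : ι → κ → J) (hp : ∀ i ∈ I, le (p i) (p i))
    (hs : PC I s) (ht : PC I t) :
    ∃ i ∈ I, ∃ j ∈ I, i ≠ j ∧ ∃ r, le r (p i) ∧ le r (p j) ∧
      ∃ k, GoodAt (π r) k (s i) (s j) (t i) (t j) := by
  obtain ⟨e, he, he'⟩ := exists_W1_emb hI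
  obtain ⟨n, ⟨u⟩⟩ := Finite.exists_equiv_fin κ
  have key : ∀ s : ι → κ → J, PC I s → PC Set.univ fun ξ => s (e ξ) ∘ u.symm := fun s hs x =>
    ((hs x).preimage_of_injOn he.injOn).mono fun ξ ⟨_, k, hk⟩ => And.intro (he' ξ) ⟨_, hk⟩
  obtain ⟨ξ, η, hne, r, h1, h2, k, h3⟩ := h n (p ∘ e) _ _ (fun ξ => hp _ (he' ξ)) (key s hs)
    (key t ht)
  refine ⟨_, he' ξ, _, he' η, he.ne hne, r, h1, h2, k, ?_⟩
  simpa only [Function.comp_assoc, Equiv.symm_comp_self, Function.comp_id] using h3.comp u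

theorem Star.ccc (h : Star le π) {ι : Type 1} {I : Set ι} (hI : ¬ I.Countable) (p : ι → D)
    (hp : ∀ i ∈ I, le (p i) (p i)) : ∃ i ∈ I, ∃ j ∈ I, i ≠ j ∧ ∃ r, le r (p i) ∧ le r (p j) := by
  obtain ⟨i, hi, j, hj, hne, r, h1, h2, -⟩ := h.general (κ := Empty) hI p (fun _ => Empty.elim)
    (fun _ => Empty.elim) hp (fun x => by simp) (fun x => by simp)
  exact ⟨i, hi, j, hj, hne, r, h1, h2⟩

end star

theorem PC.avoid {ι κ : Type*} {I : Set ι} {s : ι → κ → J} (h : PC I s) {E : Set J}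
    (hE : E.Countable) : {i | i ∈ I ∧ ∃ k, s i k ∈ E}.Countable :=
  (hE.biUnion fun x _ => h x).mono fun _ ⟨hi, k, hk⟩ =>
    Set.mem_biUnion hk (And.intro hi ⟨k, rfl⟩)

set_option maxHeartbeats 400000 in
theorem star_cohen : Star (fun c c' : Coh => c ≤ c') id := by
  classical
  intro n p s t _ hs ht
  have h1 : ∀ ξ, ∃ N : ℕ, (∀ i, (s ξ i).1.length ≤ N ∧ (t ξ i).1.length ≤ N) := fun ξ => by
    obtain ⟨N, hN⟩ := (Set.finite_range fun i => max (s ξ i).1.length (t ξ i).1.length).bddAbove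
    exact ⟨N, fun i => max_le_iff.1 (hN ⟨i, rfl⟩)⟩
  choose N0 hN0 using h1
  have h2 : ∀ ξ, ∃ N : ℕ, N0 ξ ≤ N ∧ ∀ z ∈ (p ξ).s, z.1.2 < N := fun ξ => by
    obtain ⟨N, hN⟩ := ((p ξ).fin.image fun z => z.1.2).bddAbove
    exact ⟨max (N0 ξ) (N + 1), le_max_left _ _, fun z hz =>
      lt_max_of_lt_right (Nat.lt_succ_of_le (hN ⟨z, hz, rfl⟩))⟩
  choose N1 hN1 hN1' using h2
  obtain ⟨N, hI1⟩ := exists_fiber N1 Set.not_countable_univ
  have h3 : ∀ ξ, ∃ c : Coh, c ≤ p ξ ∧ (∀ z ∈ c.s, z ∈ (p ξ).s ∨ z.1.2 < N) ∧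
      ∃ b : Fin n × Fin N → Bool, ∀ k, bit c (false, s ξ k.1) k.2 (b k) := fun ξ => by
    obtain ⟨c, hc, b, hb⟩ := exists_bits (p ξ) (fun k : Fin n × Fin N => (false, s ξ k.1))
      fun k => k.2
    refine ⟨⟨{z | z ∈ c.s ∧ (z ∈ (p ξ).s ∨ z.1.2 < N)}, c.fin.subset fun _ h => h.1,
      fun x b b' h h' => c.fn x b b' h.1 h'.1⟩, fun z hz => ⟨hc hz, Or.inl hz⟩,
      fun z hz => hz.2, b, fun k => ?_⟩
    have := hb k
    unfold bit at this ⊢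
    split_ifs at this ⊢
    exacts [this, ⟨this, Or.inr k.2.2⟩]
  choose c hc hcN b hb using h3
  obtain ⟨b0, hI2⟩ := exists_fiber b hI1
  let S : W1 → Finset J := fun ξ => ((c ξ).fin.toFinset.image fun z => z.1.1.2) ∪
    (Finset.univ.image (s ξ) ∪ Finset.univ.image (t ξ))
  obtain ⟨D, I3, hI3, hI3', -, hD⟩ := exists_delta S hI2
  have hI4 := not_countable_diff hI3' ((hs.avoid D.countable_toSet).union
    (ht.avoid D.countable_toSet))
  obtain ⟨T0, hI5⟩ := exists_fiber (fun ξ =>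
    {z : ((Bool × D) × Fin N) × Bool | (((z.1.1.1, z.1.1.2.1), z.1.2.1), z.2) ∈ (c ξ).s}) hI4
  obtain ⟨ξ, hξ, η, hη, hne⟩ := exists_ne_of_not_countable hI5
  have hlt : ∀ ζ ∈ I3, ∀ z ∈ (c ζ).s, z.1.2 < N := fun ζ hζ z hz =>
    (hcN ζ z hz).elim (fun h => (hN1' ζ z h).trans_eq (hI3 hζ).1.2) id
  have hcomp : FCond.Compat (c ξ) (c η) := by
    rintro ⟨⟨β, j⟩, m⟩ b b' g1 g2
    have hj : j ∈ D := hD ξ hξ.1.1 η hη.1.1 hne j
      (Finset.mem_union_left _ (Finset.mem_image.2 ⟨_, (c ξ).fin.mem_toFinset.2 g1, rfl⟩))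
      (Finset.mem_union_left _ (Finset.mem_image.2 ⟨_, (c η).fin.mem_toFinset.2 g2, rfl⟩))
    have hm : m < N := hlt ξ hξ.1.1 _ g1
    have g3 := (Set.ext_iff.1 (hξ.2.trans hη.2.symm) (((β, ⟨j, hj⟩), ⟨m, hm⟩), b)).1 g1
    exact (c η).fn _ _ _ g3 g2
  have htD : ∀ i j, t ξ i ≠ t η j := fun i j h => by
    have : t ξ i ∈ D := hD ξ hξ.1.1 η hη.1.1 hne _
      (Finset.mem_union_right _ (Finset.mem_union_right _ (by simp)))
      (Finset.mem_union_right _ (Finset.mem_union_right _ (by simp [h])))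
    exact hξ.1.2 (Or.inr ⟨trivial, i, this⟩)
  let Zs : Set (Bool × J) := (Set.range fun i => (false, s ξ i)) ∪
    (Set.range fun i => (false, s η i)) ∪ (Set.range fun i => (true, t ξ i)) ∪
    (Set.range fun i => (true, t η i))
  let vl : Bool × J → Bool := fun z => decide (z.1 = true ∧ ∃ i, z.2 = t η i)
  let top : Coh := ⟨(fun z => ((z, N), vl z)) '' Zs,
    ((((Set.finite_range _).union (Set.finite_range _)).union (Set.finite_range _)).union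
      (Set.finite_range _)).image _, by
      rintro x b b' ⟨z, -, h⟩ ⟨z', -, h'⟩
      have e1 : z = z' := (congrArg (fun z => z.1.1) h).trans (congrArg (fun z => z.1.1) h').symm
      subst e1
      exact (congrArg Prod.snd h).symm.trans (congrArg Prod.snd h')⟩
  have hcomp2 : FCond.Compat ((c ξ).union (c η) hcomp) top := by
    rintro x b b' g1 ⟨z, -, h⟩
    have : x.2 = N := (congrArg (fun z => z.1.2) h).symm
    exact absurd (g1.elim (hlt ξ hξ.1.1 _) (hlt η hη.1.1 _)) (not_lt.2 this.ge)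
  let r : Coh := ((c ξ).union (c η) hcomp).union top hcomp2
  have r1 : r ≤ c ξ := fun z hz => Or.inl (Or.inl hz)
  have r2 : r ≤ c η := fun z hz => Or.inl (Or.inr hz)
  have hlen : ∀ ζ ∈ I3, ∀ i, (s ζ i).1.length ≤ N ∧ (t ζ i).1.length ≤ N := fun ζ hζ i =>
    ⟨(hN0 ζ i).1.trans ((hN1 ζ).trans_eq (hI3 hζ).1.2),
      (hN0 ζ i).2.trans ((hN1 ζ).trans_eq (hI3 hζ).1.2)⟩
  refine ⟨ξ, η, hne, r, r1.trans (hc ξ), r2.trans (hc η), N + 1, fun i m hm => ?_,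
    fun j => ⟨N, N.lt_succ_self, false, ?_, ?_⟩⟩
  · rcases Nat.lt_succ_iff_lt_or_eq.1 hm with hm | rfl
    · refine ⟨b0 (i, ⟨m, hm⟩), ?_, ?_⟩
      · rw [← (hI3 hξ.1.1).2]
        exact (hb ξ (i, ⟨m, hm⟩)).mono r1
      · rw [← (hI3 hη.1.1).2]
        exact (hb η (i, ⟨m, hm⟩)).mono r2
    · refine ⟨false, ?_, ?_⟩
      · rw [bit, if_neg (not_lt.2 (hlen ξ hξ.1.1 i).1)]
        exact Or.inr ⟨_, Or.inl (Or.inl (Or.inl ⟨i, rfl⟩)), by simp [vl]⟩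
      · rw [bit, if_neg (not_lt.2 (hlen η hη.1.1 i).1)]
        exact Or.inr ⟨_, Or.inl (Or.inl (Or.inr ⟨i, rfl⟩)), by simp [vl]⟩
  · rw [bit, if_neg (not_lt.2 (hlen ξ hξ.1.1 j).2)]
    exact Or.inr ⟨_, Or.inl (Or.inr ⟨j, rfl⟩), by simp [vl, htD]⟩
  · rw [bit, if_neg (not_lt.2 (hlen η hη.1.1 j).2)]
    exact Or.inr ⟨_, Or.inr ⟨j, rfl⟩, by simp [vl]⟩

section killer
variable {D : Type 1} (le : D → D → Prop) (π : D → Coh) {n : ℕ} (p : W1 → D)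
  (s t : W1 → Fin n → J)

/-- `r` forces the finite set `F` to be a condition of the killer poset -/
def Valid (r : D) (F : Finset W1) : Prop :=
  (∀ ξ ∈ F, le r (p ξ)) ∧
    ∀ ξ ∈ F, ∀ η ∈ F, ξ ≠ η → ∃ k, GoodAt (π r) k (s ξ) (s η) (t ξ) (t η)

variable {le π p s t}

theorem Valid.mono (htr : ∀ a b c, le a b → le b c → le a c) (hπ : ∀ a b, le a b → π a ≤ π b)
    {r r' : D} {F : Finset W1} (h : Valid le π p s t r F) (hr : le r' r) :
    Valid le π p s t r' F :=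
  ⟨fun ξ hξ => htr _ _ _ hr (h.1 ξ hξ),
    fun ξ hξ η hη hne => (h.2 ξ hξ η hη hne).imp fun _ h => h.mono (hπ _ _ hr)⟩

theorem star_killer (h : Star le π) (htr : ∀ a b c, le a b → le b c → le a c)
    (hπ : ∀ a b, le a b → π a ≤ π b) (hl : ∀ a b, le a b → le a a)
    (hext : ∀ a, le a a → ∀ c ≤ π a, ∃ b, le b a ∧ π b ≤ c)
    (hs : PC Set.univ s) (ht : PC Set.univ t) :
    Star (fun x y : D × Finset W1 => le x.1 y.1 ∧ Valid le π p s t x.1 x.2 ∧ y.2 ⊆ x.2)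
      fun x => π x.1 := by
  classical
  intro m q s' t' hq hs' ht'
  obtain ⟨R, l, I1, -, hI1, hR, hpc⟩ := exists_root (fun ζ => (q ζ).2) Set.not_countable_univ
  have h1 : ∀ ζ, ∃ e : Fin l → W1, ζ ∈ I1 →
      (∀ i, e i ∈ (q ζ).2 \ R) ∧ Function.Injective e ∧ ∀ ξ ∈ (q ζ).2 \ R, ∃ i, e i = ξ := by
    intro ζ
    by_cases hζ : ζ ∈ I1
    · let u := Finset.equivFinOfCardEq (hR ζ hζ).2
      exact ⟨fun i => (u.symm i).1, fun _ => ⟨fun i => (u.symm i).2,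
        Subtype.val_injective.comp u.symm.injective, fun ξ hξ => ⟨u ⟨ξ, hξ⟩, by simp⟩⟩⟩
    · exact ⟨fun _ => ζ, fun h => absurd h hζ⟩
  choose e he using h1
  have h2 : ∀ ζ, ∃ N : ℕ, ∀ ξ ∈ (q ζ).2, ∀ η ∈ (q ζ).2, ξ ≠ η →
      ∃ k ≤ N, GoodAt (π (q ζ).1) k (s ξ) (s η) (t ξ) (t η) := by
    intro ζ
    have : ∀ x : (q ζ).2 × (q ζ).2, ∃ k, x.1.1 ≠ x.2.1 →
        GoodAt (π (q ζ).1) k (s x.1) (s x.2) (t x.1) (t x.2) := fun x => by
      by_cases hx : x.1.1 = x.2.1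
      · exact ⟨0, fun h => absurd hx h⟩
      · exact ((hq ζ).2.1.2 _ x.1.2 _ x.2.2 hx).imp fun _ h _ => h
    choose k hk using this
    obtain ⟨N, hN⟩ := (Set.finite_range k).bddAbove
    exact ⟨N, fun ξ hξ η hη hne => ⟨k (⟨ξ, hξ⟩, ⟨η, hη⟩), hN ⟨_, rfl⟩, hk (⟨ξ, hξ⟩, ⟨η, hη⟩) hne⟩⟩
  choose N1 hN1 using h2
  obtain ⟨N, hI2⟩ := exists_fiber N1 hI1
  have h3 : ∀ ζ, ∃ q' : D, le q' (q ζ).1 ∧ ∃ b : Bool × Fin l × Fin n × Fin N → Bool,
      ∀ i j k, bit (π q') (false, s (e ζ i) j) k.1 (b (false, i, j, k)) ∧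
        bit (π q') (true, t (e ζ i) j) k.1 (b (true, i, j, k)) := fun ζ => by
    obtain ⟨c, hc, b, hb⟩ := exists_bits (π (q ζ).1) (fun x : Bool × Fin l × Fin n × Fin N =>
      (x.1, if x.1 then t (e ζ x.2.1) x.2.2.1 else s (e ζ x.2.1) x.2.2.1)) fun x => x.2.2.2.1
    obtain ⟨q', g1, g2⟩ := hext _ (hq ζ).1 c hc
    exact ⟨q', g1, b, fun i j k => ⟨(hb (false, i, j, k)).mono g2, (hb (true, i, j, k)).mono g2⟩⟩
  choose q' hq' b hb using h3
  obtain ⟨b0, hI3⟩ := exists_fiber b hI2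
  have key : ∀ (s : W1 → Fin n → J) (s' : W1 → Fin m → J), PC Set.univ s → PC Set.univ s' →
      PC I1 fun ζ => Sum.elim (s' ζ) fun x : Fin l × Fin n => s (e ζ x.1) x.2 := by
    intro s s' hs hs' x
    refine ((hs' x).union ((hs x).biUnion fun ξ _ => hpc ξ)).mono ?_
    rintro ζ ⟨hζ, k | ⟨i, j⟩, hk⟩
    · exact Or.inl ⟨trivial, k, hk⟩
    · exact Or.inr (Set.mem_biUnion (And.intro trivial ⟨j, hk⟩) (And.intro hζ ((he ζ hζ).1 i)))
  obtain ⟨ζ, hζ, ζ', hζ', hne, r, r1, r2, k, hk⟩ := h.general hI3 q' _ _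
    (fun i _ => hl _ _ (hq' i)) ((key s s' hs hs').mono fun _ h => h.1.1)
    ((key t t' ht ht').mono fun _ h => h.1.1)
  have v1 := (hq ζ).2.1.mono htr hπ (htr _ _ _ r1 (hq' ζ))
  have v2 := (hq ζ').2.1.mono htr hπ (htr _ _ _ r2 (hq' ζ'))
  have cross : ∀ ξ ∈ (q ζ).2, ∀ η ∈ (q ζ').2, ξ ≠ η →
      ∃ k, GoodAt (π r) k (s ξ) (s η) (t ξ) (t η) := by
    intro ξ hξ η hη hξη
    by_cases g1 : ξ ∈ R
    · exact v2.2 ξ ((hR ζ' hζ'.1.1).1 g1) η hη hξη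
    by_cases g2 : η ∈ R
    · exact v1.2 ξ hξ η ((hR ζ hζ.1.1).1 g2) hξη
    obtain ⟨i, rfl⟩ := (he ζ hζ.1.1).2.2 ξ (Finset.mem_sdiff.2 ⟨hξ, g1⟩)
    obtain ⟨j, rfl⟩ := (he ζ' hζ'.1.1).2.2 η (Finset.mem_sdiff.2 ⟨hη, g2⟩)
    by_cases hij : i = j
    · subst hij
      exact ⟨k, hk.comp fun a => Sum.inr (i, a)⟩
    obtain ⟨k', hk', g3⟩ := hN1 ζ _ hξ (e ζ j) (Finset.mem_sdiff.1 ((he ζ hζ.1.1).1 j)).1
      ((he ζ hζ.1.1).2.1.ne hij)
    replace g3 := g3.mono (hπ _ _ (htr _ _ _ r1 (hq' ζ)))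
    have hN : k' ≤ N := hζ.1.2 ▸ hk'
    have hbb : b ζ = b ζ' := hζ.2.trans hζ'.2.symm
    refine ⟨k', fun a m hm => ?_, fun a => ?_⟩
    · obtain ⟨β, u1, u2⟩ := g3.1 a m hm
      have u3 := ((hb ζ j a ⟨m, hm.trans_le hN⟩).1.mono (hπ _ _ r1)).unique u2
      have u4 := (hb ζ' j a ⟨m, hm.trans_le hN⟩).1.mono (hπ _ _ r2)
      exact ⟨β, u1, u3 ▸ hbb ▸ u4⟩
    · obtain ⟨m, hm, β, u1, u2⟩ := g3.2 a
      have u3 := ((hb ζ j a ⟨m, hm.trans_le hN⟩).2.mono (hπ _ _ r1)).unique u2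
      have u4 := (hb ζ' j a ⟨m, hm.trans_le hN⟩).2.mono (hπ _ _ r2)
      exact ⟨m, hm, β, u1, u3 ▸ hbb ▸ u4⟩
  have v : Valid le π p s t r ((q ζ).2 ∪ (q ζ').2) := by
    refine ⟨fun ξ hξ => (Finset.mem_union.1 hξ).elim (v1.1 ξ) (v2.1 ξ), fun ξ hξ η hη hξη => ?_⟩
    rcases Finset.mem_union.1 hξ with hξ | hξ <;> rcases Finset.mem_union.1 hη with hη | hη
    · exact v1.2 ξ hξ η hη hξη
    · exact cross ξ hξ η hη hξη
    · exact (cross η hη ξ hξ hξη.symm).imp fun _ h => h.symm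
    · exact v2.2 ξ hξ η hη hξη
  exact ⟨ζ, ζ', hne, (r, (q ζ).2 ∪ (q ζ').2),
    ⟨htr _ _ _ r1 (hq' ζ), v, Finset.subset_union_left⟩,
    ⟨htr _ _ _ r2 (hq' ζ'), v, Finset.subset_union_right⟩, k, hk.comp Sum.inl⟩

end killer

end Pool.Agent.P.MP_93aff1_lc
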