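import Mathlib

set_option autoImplicit false

/-! Two dense sets of size `ℵ₁` in Cantor space such that every Lipschitz map of the first into the
second has an uncountable fibre. -/

open Cardinal Set

namespace Pool.Agent.P.MP_93aff1_lc.Ulam

/-- the list `s` followed by `y` -/
def pre (s : List Bool) (y : ℕ → Bool) : ℕ → Bool :=
  fun m => if m < s.length then s.getD m false else y (m - s.length)

theorem pre_add (s : List Bool) (y : ℕ → Bool) (m : ℕ) : pre s y (s.length + m) = y m := by
  simp [pre]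

theorem pre_nil (y : ℕ → Bool) : pre [] y = y := by
  funext m; simp [pre]

theorem pre_inj (s : List Bool) : Function.Injective (pre s) := fun y z h =>
  funext fun m => by rw [← pre_add s y m, h, pre_add]

theorem exists_cyl {U : Set (ℕ → Bool)} (hU : IsOpen U) (hne : U.Nonempty) :
    ∃ s, ∀ y, pre s y ∈ U := by
  obtain ⟨x, hx⟩ := hne
  obtain ⟨I, u, hu, hI⟩ := isOpen_pi_iff.1 hU x hx
  obtain ⟨N, hN⟩ := I.bddAbove
  refine ⟨List.ofFn fun i : Fin (N + 1) => x i, fun y => hI fun i hi => ?_⟩
  have h1 : i < N + 1 := Nat.lt_succ_of_le (hN hi)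
  have h2 : pre (List.ofFn fun i : Fin (N + 1) => x i) y i = x i := by
    rw [pre, if_pos (by simpa using h1)]
    simp only [List.getD_eq_getElem?_getD, List.getElem?_ofFn, h1, dite_true, Option.getD_some]
  rw [h2]
  exact (hu i hi).2

theorem dense_pre {W : Type} (hW : #W = ℵ₁) {a : W → ℕ → Bool} (ha : Function.Injective a)
    (U : Set (ℕ → Bool)) (hU : IsOpen U) (hne : U.Nonempty) :
    #(↥(range (fun z : List Bool × W => pre z.1 (a z.2)) ∩ U)) = ℵ₁ := by
  refine le_antisymm ((mk_le_mk_of_subset inter_subset_left).trans (mk_range_le.trans ?_)) ?_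
  · simp [hW, aleph0_lt_aleph_one.le]
  · obtain ⟨s, hs⟩ := exists_cyl hU hne
    rw [← hW]
    exact mk_le_of_injective (f := fun w => ⟨pre s (a w), ⟨(s, w), rfl⟩, hs _⟩)
      fun w w' h => ha (pre_inj s (congrArg Subtype.val h))

/-- the positions that carry the bits of a slow point -/
def H (j : ℕ) : ℕ := j + (j + 1) ^ 2

theorem H_mono : StrictMono H := strictMono_nat_of_lt_succ fun j => by
  unfold H; nlinarith

/-- a slow copy of `x` -/
noncomputable def slow (x : ℕ → Bool) : ℕ → Bool := Function.extend H x fun _ => false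

theorem slow_H (x : ℕ → Bool) (j : ℕ) : slow x (H j) = x j := H_mono.injective.extend_apply _ _ _

theorem slow_agree {x y : ℕ → Bool} {j : ℕ} (h : ∀ i < j, x i = y i) :
    ∀ m < H j, slow x m = slow y m := by
  intro m hm
  by_cases e : ∃ i, H i = m
  · obtain ⟨i, rfl⟩ := e
    rw [slow_H, slow_H, h i (H_mono.lt_iff_lt.1 hm)]
  · rw [slow, slow, Function.extend_apply' _ _ _ e, Function.extend_apply' _ _ _ e]

theorem countable_of_regressive {W : Type} [LinearOrder W] [WellFoundedLT W] {φ : W → W}
    (h1 : ∀ b, (φ ⁻¹' {b}).Countable) (h2 : {a | a ≤ φ a}.Countable) : Countable W := by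
  have h3 : ∀ n, ((φ^[n]) ⁻¹' {a | a ≤ φ a}).Countable := by
    intro n
    induction n with
    | zero => simpa using h2
    | succ n ih =>
      refine (ih.biUnion fun b _ => h1 b).mono fun a ha => ?_
      exact mem_biUnion (x := φ a) ha rfl
  refine countable_univ_iff.1 ((countable_iUnion h3).mono fun a ha => ?_)
  clear ha
  induction a using WellFoundedLT.induction with
  | ind a ih =>
    by_cases h : a ≤ φ a
    · exact mem_iUnion.2 ⟨0, h⟩
    · obtain ⟨n, hn⟩ := mem_iUnion.1 (ih _ (not_le.1 h))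
      exact mem_iUnion.2 ⟨n + 1, hn⟩

theorem main : ∃ A B : Set (ℕ → Bool),
    (∀ U, IsOpen U → U.Nonempty → #(↥(A ∩ U)) = ℵ₁) ∧
    (∀ U, IsOpen U → U.Nonempty → #(↥(B ∩ U)) = ℵ₁) ∧
    ∀ f : (ℕ → Bool) → ℕ → Bool,
      (∀ k x y, (∀ i < k, x i = y i) → ∀ i < k, f x i = f y i) → MapsTo f A B →
      ∃ b, ¬ (A ∩ f ⁻¹' {b}).Countable := by
  classical
  let W : Type := (aleph.{0} 1).ord.ToType
  have hW : #W = ℵ₁ := by simp [W]
  obtain ⟨x⟩ : Nonempty (W ↪ (ℕ → Bool)) := by
    rw [← Cardinal.le_def, hW]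
    simpa using aleph_one_le_continuum
  have h1 : ∀ β : W, ∃ e : ℕ → W, e 0 = β ∧ ∀ α ≤ β, ∃ n, e n = α := fun β => by
    have c1 : (Iio β).Countable := by
      rw [← le_aleph0_iff_set_countable, ← Order.lt_succ_iff, succ_aleph0]
      exact (mk_Iio_lt β (by simp [W])).trans_eq hW
    obtain ⟨e, he⟩ := (c1.insert β).exists_eq_range (insert_nonempty _ _)
    refine ⟨fun n => Nat.casesOn n β e, rfl, fun α hα => ?_⟩
    obtain ⟨n, hn⟩ : α ∈ range e := he ▸ hα.eq_or_lt
    exact ⟨n + 1, hn⟩
  choose en en0 hen using h1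
  let a : W → ℕ → Bool := fun α => slow (x α)
  let b : W → ℕ → Bool := fun β m => x (en β m.unpair.1) m.unpair.2
  have hb : ∀ β n j, b β (Nat.pair n j) = x (en β n) j := fun β n j => by simp [b]
  have ha : Function.Injective a := fun α α' h =>
    x.injective (funext fun j => by rw [← slow_H (x α), ← slow_H (x α')]; exact congrFun h _)
  have hb' : Function.Injective b := fun β β' h =>
    x.injective (funext fun j => by rw [← en0 β, ← en0 β', ← hb, ← hb, h])
  refine ⟨_, _, dense_pre hW ha, dense_pre hW hb', fun f hf hAB => ?_⟩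
  by_contra hcon
  push Not at hcon
  have hA : ∀ α, a α ∈ range fun z : List Bool × W => pre z.1 (a z.2) := fun α =>
    ⟨([], α), pre_nil _⟩
  choose z hz using fun α => hAB (hA α)
  have h2 : ∀ β, ((fun α => (z α).2) ⁻¹' {β}).Countable := fun β => by
    refine (countable_iUnion fun s : List Bool =>
      (hcon (pre s (b β))).preimage_of_injOn ha.injOn).mono fun α hα => ?_
    refine mem_iUnion.2 ⟨(z α).1, hA α, ?_⟩
    rw [← show (z α).2 = β from hα]
    exact (hz α).symm
  have h3 : {α | α ≤ (z α).2}.Countable := by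
    have h4 : ∀ α, ∃ n, α ≤ (z α).2 → en (z α).2 n = α := fun α => by
      by_cases h : α ≤ (z α).2
      · exact (hen _ _ h).imp fun n hn _ => hn
      · exact ⟨0, fun k => absurd k h⟩
    choose n hn using h4
    refine countable_of_injective_of_countable_image (f := fun α => (n α, (z α).1.length,
      (List.range (max (n α) (z α).1.length)).map (x α))) (fun α hα α' hα' e => ?_)
      (to_countable _)
    simp only [Prod.mk.injEq] at e
    obtain ⟨e1, e2, e3⟩ := e
    rw [← e1, ← e2, List.map_inj_left] at e3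
    refine x.injective (funext fun j => ?_)
    induction j using Nat.strong_induction_on with
    | _ j ih =>
      rcases lt_or_ge j (max (n α) (z α).1.length) with hj | hj
      · exact e3 j (List.mem_range.2 hj)
      · have k1 := Nat.pair_lt_max_add_one_sq (n α) j
        rw [max_eq_right ((le_max_left _ _).trans hj)] at k1
        have k2 := (le_max_right _ _).trans hj
        have k3 := hf _ _ _ (slow_agree ih) ((z α).1.length + Nat.pair (n α) j)
          (by unfold H; omega)
        change f (a α) _ = f (a α') _ at k3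
        rw [← hz α, ← hz α'] at k3
        simp only at k3
        rw [pre_add, hb, hn α hα, e2, e1, pre_add, hb, hn α' hα'] at k3
        exact k3
  have h5 := countable_of_regressive h2 h3
  rw [← mk_le_aleph0_iff, hW] at h5
  exact h5.not_gt aleph0_lt_aleph_one

/-- a Lipschitz self-map of Cantor space with dense range is injective -/
theorem inj_of_dense (f : (ℕ → Bool) → ℕ → Bool)
    (hf : ∀ k x y, (∀ i < k, x i = y i) → ∀ i < k, f x i = f y i)
    (hd : ∀ U : Set (ℕ → Bool), IsOpen U → U.Nonempty → (range f ∩ U).Nonempty) :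
    Function.Injective f := by
  classical
  intro x y hxy
  funext m
  let ex : (Fin (m + 1) → Bool) → ℕ → Bool := fun s i => if h : i < m + 1 then s ⟨i, h⟩ else false
  let g : (Fin (m + 1) → Bool) → Fin (m + 1) → Bool := fun s i => f (ex s) i
  have key : ∀ z : ℕ → Bool, g (fun i => z i) = fun i : Fin (m + 1) => f z i := fun z =>
    funext fun i => hf (m + 1) (ex fun i => z i) z (fun j hj => dif_pos hj) i i.2
  have hs : Function.Surjective g := fun t => by
    obtain ⟨_, ⟨z, rfl⟩, hz⟩ := hd {w | (fun i : Fin (m + 1) => w i) = t}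
      ((isOpen_discrete {t}).preimage (f := fun (w : ℕ → Bool) (i : Fin (m + 1)) => w i) (by fun_prop))
      ⟨ex t, funext fun i => dif_pos i.2⟩
    exact ⟨fun i => z i, (key z).trans hz⟩
  have : (fun i : Fin (m + 1) => x i) = fun i : Fin (m + 1) => y i :=
    (Finite.injective_iff_surjective.2 hs) ((key x).trans (hxy ▸ (key y).symm))
  exact congrFun this ⟨m, m.lt_succ_self⟩

/-- the version with `f[A] = B` fails as well -/
theorem onto_false : ∃ A B : Set (ℕ → Bool),
    (∀ U : Set (ℕ → Bool), IsOpen U → U.Nonempty → #(↥(A ∩ U)) = ℵ₁) ∧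
    (∀ U : Set (ℕ → Bool), IsOpen U → U.Nonempty → #(↥(B ∩ U)) = ℵ₁) ∧
    ∀ f : (ℕ → Bool) → ℕ → Bool,
      (∀ (k : ℕ) (x y : ℕ → Bool), (∀ i < k, x i = y i) → ∀ i < k, f x i = f y i) → f '' A ≠ B := by
  obtain ⟨A, B, hA, hB, h⟩ := main
  refine ⟨A, B, hA, hB, fun f hf e => ?_⟩
  obtain ⟨b, hb⟩ := h f hf (fun x hx => e ▸ mem_image_of_mem f hx)
  have hi := inj_of_dense f hf fun U hU hne => by
    have : Nonempty (↥(B ∩ U)) := by
      rw [← mk_ne_zero_iff, hB U hU hne]; exact (aleph_pos _).ne'
    obtain ⟨z, hz, hz'⟩ := this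
    rw [← e] at hz
    exact ⟨z, image_subset_range _ _ hz, hz'⟩
  exact hb (Set.Subsingleton.countable fun x hx y hy => hi (hx.2.trans hy.2.symm))

end Pool.Agent.P.MP_93aff1_lc.Ulam
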