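import Pool.Agent.P.MP_93aff1_lc.MA

set_option autoImplicit false

open Pool.Agent.Lib.PosetForcing Pool.Agent.P.MP_93aff1_lc

namespace Pool.Agent.P.MP_93aff1_lc.VariantNotImplied

theorem result :
    ∃ (M : Type 2) (mem : M → M → Prop), IsZFC mem ∧
      ∃ w w1 C : M, IsOmega mem w ∧ IsOmega1 mem w1 w ∧ IsPow mem C w ∧
        MA mem w C ∧ ¬ LeCard mem C w1 ∧ ¬ BALip mem w w1 C := by
  obtain ⟨U, -⟩ := exists_gen (⊤ : PP)
  exact ⟨Mod U, Mod.mem, isZFC U, wN.val U, w1N.val U, cN.val U, isOmega_omega U, isOmega1_w1N U,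
    isPow_powName _ U, ma_holds U, not_ch U, not_baLip U⟩

end Pool.Agent.P.MP_93aff1_lc.VariantNotImplied
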